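import Mathlib

/-!
Vanishing sums of roots of unity with complex coefficients: the nondegenerate
solutions of `∑ c u * ζ u = 0` in roots of unity have ratios of bounded order.
-/

namespace Pool.Agent.Helper9

open Polynomial Finset

/-- The roots of unity in `ℂ`. -/
def muSet : Set ℂ := {z | ∃ n : ℕ, 0 < n ∧ z ^ n = 1}

/-- The standard primitive `n`-th root of unity. -/
noncomputable def xi (n : ℕ) : ℂ := Complex.exp (2 * Real.pi * Complex.I / n)

lemma xi_prim {n : ℕ} (hn : 0 < n) : IsPrimitiveRoot (xi n) n :=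
  Complex.isPrimitiveRoot_exp n hn.ne'

lemma xi_pow {n k : ℕ} (hn : 0 < n) (hk : 0 < k) : xi (n * k) ^ k = xi n := by
  unfold xi
  rw [← Complex.exp_nat_mul]
  congr 1
  have h1 : (n : ℂ) ≠ 0 := by exact_mod_cast hn.ne'
  have h2 : (k : ℂ) ≠ 0 := by exact_mod_cast hk.ne'
  push_cast
  field_simp

/-- `x` is a rational polynomial in `xi m`. -/
def CycRep (m : ℕ) (x : ℂ) : Prop := ∃ G : ℚ[X], aeval (xi m) G = x

lemma CycRep.mono {m m' : ℕ} (hm' : 0 < m') (h : m ∣ m') {x : ℂ}
    (hx : CycRep m x) : CycRep m' x := by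
  obtain ⟨k, rfl⟩ := h
  obtain ⟨G, rfl⟩ := hx
  have hm : 0 < m := Nat.pos_of_mul_pos_right hm'
  have hk : 0 < k := Nat.pos_of_mul_pos_left hm'
  refine ⟨G.comp (X ^ k), ?_⟩
  rw [aeval_comp]
  simp [xi_pow hm hk]

lemma exists_cycRep (x : ℂ) (hx : x ∈ Algebra.adjoin ℚ muSet) : ∃ m : ℕ, 0 < m ∧ CycRep m x := by
  induction hx using Algebra.adjoin_induction with
  | mem z hz =>
    obtain ⟨n, hn, hz⟩ := hz
    have : NeZero n := ⟨hn.ne'⟩
    obtain ⟨k, -, hk⟩ := (xi_prim hn).eq_pow_of_pow_eq_one hz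
    exact ⟨n, hn, X ^ k, by simp [hk]⟩
  | algebraMap r => exact ⟨1, one_pos, C r, by simp⟩
  | add x y _ _ hx hy =>
    obtain ⟨m, hm, hx⟩ := hx
    obtain ⟨n, hn, hy⟩ := hy
    have hmn : 0 < m * n := Nat.mul_pos hm hn
    obtain ⟨G, hG⟩ := hx.mono hmn (dvd_mul_right m n)
    obtain ⟨H, hH⟩ := hy.mono hmn (dvd_mul_left n m)
    exact ⟨m * n, hmn, G + H, by simp [hG, hH]⟩
  | mul x y _ _ hx hy =>
    obtain ⟨m, hm, hx⟩ := hx
    obtain ⟨n, hn, hy⟩ := hy
    have hmn : 0 < m * n := Nat.mul_pos hm hn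
    obtain ⟨G, hG⟩ := hx.mono hmn (dvd_mul_right m n)
    obtain ⟨H, hH⟩ := hy.mono hmn (dvd_mul_left n m)
    exact ⟨m * n, hmn, G * H, by simp [hG, hH]⟩

lemma aeval_xi_pow_eq_zero {N t : ℕ} (hN : 0 < N) (ht : t.Coprime N) (P : ℚ[X])
    (hP : aeval (xi N) P = 0) : aeval (xi N ^ t) P = 0 := by
  have h1 : minpoly ℚ (xi N) ∣ P := minpoly.dvd ℚ _ hP
  have h2 : cyclotomic N ℚ = minpoly ℚ (xi N) := cyclotomic_eq_minpoly_rat (xi_prim hN) hN
  have h3 : cyclotomic N ℚ = minpoly ℚ (xi N ^ t) :=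
    cyclotomic_eq_minpoly_rat ((xi_prim hN).pow_of_coprime t ht) hN
  obtain ⟨Q, rfl⟩ := h1
  rw [map_mul, ← h2, h3, minpoly.aeval, zero_mul]

/-- Galois invariance of vanishing sums of roots of unity with arbitrary complex coefficients. -/
theorem exists_galois_invariance {U : Type*} [Fintype U] (c : U → ℂ) :
    ∃ m : ℕ, 0 < m ∧ ∀ N : ℕ, 0 < N → m ∣ N → ∀ t : ℕ, t.Coprime N → t ≡ 1 [MOD m] →
      ∀ ζ : U → ℂ, (∀ u, ζ u ^ N = 1) → ∀ J : Finset U,
        ∑ u ∈ J, c u * ζ u = 0 → ∑ u ∈ J, c u * ζ u ^ t = 0 := by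
  classical
  set E : IntermediateField ℚ ℂ := IntermediateField.adjoin ℚ muSet with hE
  have halg : E.toSubalgebra = Algebra.adjoin ℚ muSet := by
    refine IntermediateField.adjoin_toSubalgebra_of_isAlgebraic ?_
    rintro z ⟨n, hn, hz⟩
    refine ⟨X ^ n - 1, ?_, by simp [hz]⟩
    exact (monic_X_pow_sub_C (1 : ℚ) hn.ne').ne_zero
  have hmu : ∀ z : ℂ, z ∈ muSet → z ∈ E := fun z hz =>
    IntermediateField.subset_adjoin ℚ _ hz
  set W : Submodule E ℂ := Submodule.span E (Set.range c) with hW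
  have hfin : FiniteDimensional E W := FiniteDimensional.span_of_finite E (Set.finite_range c)
  let b := Module.finBasis E W
  have hcW : ∀ u, c u ∈ W := fun u => Submodule.subset_span ⟨u, rfl⟩
  let γ : Fin (Module.finrank E W) → U → E := fun j u => b.repr ⟨c u, hcW u⟩ j
  have hγ : ∀ j u, ∃ m : ℕ, 0 < m ∧ CycRep m (γ j u : ℂ) := by
    intro j u
    apply exists_cycRep
    have := (γ j u).2
    rw [← halg]
    exact this
  choose M hM0 hM using hγ
  set m : ℕ := ∏ j, ∏ u, M j u with hm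
  have hm0 : 0 < m := Finset.prod_pos fun j _ => Finset.prod_pos fun u _ => hM0 j u
  have hdiv : ∀ j u, M j u ∣ m := fun j u =>
    (Finset.dvd_prod_of_mem (fun u => M j u) (Finset.mem_univ u)).trans
      (Finset.dvd_prod_of_mem (fun j => ∏ u, M j u) (Finset.mem_univ j))
  have hG : ∀ j u, CycRep m (γ j u : ℂ) := fun j u => (hM j u).mono hm0 (hdiv j u)
  choose G hG using hG
  refine ⟨m, hm0, ?_⟩
  rintro N hN ⟨k, rfl⟩ t ht htm ζ hζ J hsum
  have hk : 0 < k := Nat.pos_of_mul_pos_left hN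
  have : NeZero (m * k) := ⟨hN.ne'⟩
  have hκ : ∀ u, ∃ κ : ℕ, xi (m * k) ^ κ = ζ u := fun u => by
    obtain ⟨κ, -, h⟩ := (xi_prim hN).eq_pow_of_pow_eq_one (hζ u)
    exact ⟨κ, h⟩
  choose κ hκ using hκ
  have hζE : ∀ u, ζ u ∈ E := fun u => hmu _ ⟨m * k, hN, hζ u⟩
  -- coordinates
  have hcoord : ∀ j, ∑ u ∈ J, (γ j u : ℂ) * ζ u = 0 := by
    intro j
    have h1 : (∑ u ∈ J, (⟨ζ u, hζE u⟩ : E) • (⟨c u, hcW u⟩ : W)) = 0 := by
      apply Subtype.ext
      simp only [Submodule.coe_sum, Submodule.coe_smul, ZeroMemClass.coe_zero]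
      rw [← hsum]
      refine Finset.sum_congr rfl fun u _ => ?_
      rw [mul_comm]
      rfl
    have h2 := congrArg (fun w => b.repr w j) h1
    simp only [map_sum, map_smul, map_zero, Finsupp.coe_zero, Pi.zero_apply,
      Finsupp.finsetSum_apply, Finsupp.smul_apply, smul_eq_mul] at h2
    have h3 := congrArg (fun e : E => (e : ℂ)) h2
    simp only [ZeroMemClass.coe_zero] at h3
    rw [← h3]
    push_cast
    refine Finset.sum_congr rfl fun u _ => ?_
    rw [mul_comm]
  have hcoord' : ∀ j, ∑ u ∈ J, (γ j u : ℂ) * ζ u ^ t = 0 := by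
    intro j
    set P : ℚ[X] := ∑ u ∈ J, (G j u).comp (X ^ k) * X ^ (κ u) with hP
    have h1 : aeval (xi (m * k)) P = 0 := by
      rw [hP, map_sum, ← hcoord j]
      refine Finset.sum_congr rfl fun u _ => ?_
      rw [map_mul, aeval_comp]
      simp only [map_pow, aeval_X, xi_pow hm0 hk, hG, hκ]
    have h2 := aeval_xi_pow_eq_zero hN ht P h1
    rw [hP, map_sum] at h2
    rw [← h2]
    refine Finset.sum_congr rfl fun u _ => ?_
    rw [map_mul, aeval_comp]
    simp only [map_pow, aeval_X]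
    have h4 : (xi (m * k) ^ t) ^ k = xi m := by
      rw [← pow_mul, mul_comm t k, pow_mul, xi_pow hm0 hk]
      have e1 := pow_eq_pow_mod t (xi_prim hm0).pow_eq_one
      have e2 := pow_eq_pow_mod 1 (xi_prim hm0).pow_eq_one
      rw [e1, show t % m = 1 % m from htm, ← e2, pow_one]
    rw [h4, hG, ← pow_mul, mul_comm t, pow_mul, hκ]
  -- conclude
  have hrep : ∀ u, c u = ∑ j, (γ j u : ℂ) * (b j : ℂ) := by
    intro u
    have h1 := b.sum_repr ⟨c u, hcW u⟩
    have h2 := congrArg (fun w : W => (w : ℂ)) h1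
    simp only [Submodule.coe_sum, Submodule.coe_smul] at h2
    rw [← h2]
    rfl
  calc ∑ u ∈ J, c u * ζ u ^ t = ∑ u ∈ J, ∑ j, (b j : ℂ) * ((γ j u : ℂ) * ζ u ^ t) := by
        refine Finset.sum_congr rfl fun u _ => ?_
        rw [hrep u, Finset.sum_mul]
        refine Finset.sum_congr rfl fun j _ => ?_
        ring
    _ = ∑ j, (b j : ℂ) * ∑ u ∈ J, (γ j u : ℂ) * ζ u ^ t := by
        rw [Finset.sum_comm]
        refine Finset.sum_congr rfl fun j _ => ?_
        rw [Finset.mul_sum]
    _ = 0 := by simp [hcoord']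

lemma class_sum_eq_zero {U : Type*} [Fintype U] (a w : U → ℂ)
    (h : ∀ j < Fintype.card U, ∑ u, a u * w u ^ j = 0) (w0 : ℂ) :
    ∑ u with w u = w0, a u = 0 := by
  classical
  by_cases hw : ∃ u, w u = w0
  swap
  · push Not at hw
    rw [Finset.filter_false_of_mem (fun u _ => hw u), Finset.sum_empty]
  obtain ⟨u0, hu0⟩ := hw
  set S : Finset ℂ := (Finset.univ.image w).erase w0 with hS
  set Q : ℂ[X] := ∏ z ∈ S, (X - C z) with hQ
  have hdeg : Q.natDegree < Fintype.card U := by
    rw [hQ, natDegree_prod_of_monic _ _ fun z _ => monic_X_sub_C z]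
    simp only [natDegree_X_sub_C, Finset.sum_const, smul_eq_mul, mul_one]
    have h1 : w0 ∈ Finset.univ.image w := Finset.mem_image.2 ⟨u0, Finset.mem_univ _, hu0⟩
    calc S.card < (Finset.univ.image w).card := Finset.card_lt_card (Finset.erase_ssubset h1)
      _ ≤ Finset.univ.card := Finset.card_image_le
      _ = Fintype.card U := Finset.card_univ
  have h1 : ∑ u, a u * Q.eval (w u) = 0 := by
    have : ∀ u, a u * Q.eval (w u)
        = ∑ j ∈ Finset.range (Q.natDegree + 1), Q.coeff j * (a u * w u ^ j) := by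
      intro u
      rw [eval_eq_sum_range, Finset.mul_sum]
      exact Finset.sum_congr rfl fun j _ => by ring
    rw [Finset.sum_congr rfl fun u _ => this u, Finset.sum_comm]
    refine Finset.sum_eq_zero fun j hj => ?_
    rw [← Finset.mul_sum, h j (by simp at hj; omega), mul_zero]
  have h2 : ∀ u, w u ≠ w0 → Q.eval (w u) = 0 := by
    intro u hu
    rw [hQ, eval_prod]
    refine Finset.prod_eq_zero (i := w u) ?_ (by simp)
    rw [hS]
    exact Finset.mem_erase.2 ⟨hu, Finset.mem_image.2 ⟨u, Finset.mem_univ _, rfl⟩⟩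
  have h3 : Q.eval w0 ≠ 0 := by
    rw [hQ, eval_prod]
    refine Finset.prod_ne_zero_iff.2 fun z hz => ?_
    rw [hS] at hz
    simp only [eval_sub, eval_X, eval_C]
    exact sub_ne_zero.2 (Finset.ne_of_mem_erase hz).symm
  have h4 : (∑ u with w u = w0, a u) * Q.eval w0 = 0 := by
    rw [← h1, Finset.sum_mul, Finset.sum_filter]
    refine Finset.sum_congr rfl fun u _ => ?_
    by_cases hu : w u = w0
    · simp [hu]
    · simp [hu, h2 u hu]
  exact (mul_eq_zero.1 h4).resolve_right h3

/-- The ratios of a nondegenerate vanishing sum of roots of unity with fixed complex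
coefficients have bounded order. -/
theorem exists_order_bound {U : Type*} [Fintype U] (c : U → ℂ) :
    ∃ M : ℕ, 0 < M ∧ ∀ ζ : U → ℂ, (∀ u, ζ u ∈ muSet) → ∑ u, c u * ζ u = 0 →
      (∀ J : Finset U, J.Nonempty → J ≠ Finset.univ → ∑ u ∈ J, c u * ζ u ≠ 0) →
      ∀ u v, ζ u ^ M = ζ v ^ M := by
  classical
  obtain ⟨m, hm0, hgal⟩ := exists_galois_invariance c
  have hprim : 0 < primorial (Fintype.card U) := primorial_pos _
  set M : ℕ := m * primorial (Fintype.card U) with hM
  refine ⟨M, Nat.mul_pos hm0 hprim, ?_⟩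
  -- normalised statement
  have key : ∀ u0 : U, ∀ N : ℕ, 0 < N → m ∣ N → ∀ ζ : U → ℂ, ζ u0 = 1 → (∀ u, ζ u ^ N = 1) →
      ∑ u, c u * ζ u = 0 →
      (∀ J : Finset U, J.Nonempty → J ≠ Finset.univ → ∑ u ∈ J, c u * ζ u ≠ 0) →
      ∀ u, ζ u ^ M = 1 := by
    intro u0 N
    induction N using Nat.strong_induction_on with
    | _ N ih =>
    intro hN hmN ζ hζ0 hζN hsum hmin
    have : Nonempty U := ⟨u0⟩
    by_cases hNM : N ∣ M
    · intro u
      obtain ⟨k, hk⟩ := hNM
      rw [hk, pow_mul, hζN, one_pow]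
    -- find p and e
    obtain ⟨s, rfl⟩ := hmN
    have hs : 0 < s := Nat.pos_of_mul_pos_left hN
    have hpe : ∃ N' e : ℕ, N' < m * s ∧ 0 < N' ∧ m ∣ N' ∧ m ∣ e ∧ Nat.gcd e (m * s) ∣ N' ∧
        ∀ j < Fintype.card U, (1 + j * e).Coprime (m * s) := by
      by_cases hA : ∃ p : ℕ, p.Prime ∧ p ∣ s ∧ p * p ∣ m * s
      · obtain ⟨p, hp, ⟨s', rfl⟩, hpp⟩ := hA
        have hs' : 0 < s' := Nat.pos_of_mul_pos_left hs
        have hpe : p ∣ m * s' := by
          have : p * p ∣ p * (m * s') := by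
            rw [show p * (m * s') = m * (p * s') by ring]
            exact hpp
          exact Nat.dvd_of_mul_dvd_mul_left hp.pos this
        refine ⟨m * s', m * s', ?_, Nat.mul_pos hm0 hs', dvd_mul_right _ _, dvd_mul_right _ _,
          Nat.gcd_dvd_left _ _, ?_⟩
        · apply Nat.mul_lt_mul_of_pos_left _ hm0
          exact lt_mul_left hs' hp.one_lt
        · intro j _
          refine Nat.Coprime.symm (Nat.coprime_of_dvd ?_)
          intro q hq hqN hq1
          have hqe : q ∣ m * s' := by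
            rw [show m * (p * s') = p * (m * s') by ring] at hqN
            rcases (Nat.Prime.dvd_mul hq).1 hqN with h | h
            · rw [(Nat.prime_dvd_prime_iff_eq hq hp).1 h]
              exact hpe
            · exact h
          have : q ∣ 1 := by
            have h1 : q ∣ j * (m * s') := Dvd.dvd.mul_left hqe j
            exact (Nat.dvd_add_left h1).1 hq1
          exact hq.one_lt.ne' (Nat.dvd_one.1 this)
      · push Not at hA
        have hsq : Squarefree s := by
          rw [Nat.squarefree_iff_prime_squarefree]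
          intro p hp hpp
          exact hA p hp ((dvd_mul_right p p).trans hpp) (hpp.trans (dvd_mul_left s m))
        have hex : ∃ p : ℕ, p.Prime ∧ p ∣ s ∧ Fintype.card U < p := by
          by_contra hcon
          push Not at hcon
          apply hNM
          rw [hM]
          apply Nat.mul_dvd_mul_left
          rw [← Nat.prod_primeFactors_of_squarefree hsq]
          refine Finset.prod_primes_dvd _ (fun p hp => (Nat.prime_of_mem_primeFactors hp).prime) ?_
          intro p hp
          exact ((Nat.prime_of_mem_primeFactors hp).dvd_primorial_iff).2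
            (hcon p (Nat.prime_of_mem_primeFactors hp) (Nat.dvd_of_mem_primeFactors hp))
        obtain ⟨p, hp, ⟨s', rfl⟩, hcard⟩ := hex
        have hs' : 0 < s' := Nat.pos_of_mul_pos_left hs
        have hpn : ¬ p ∣ m * s' := by
          intro h
          apply hA p hp (dvd_mul_right _ _)
          rw [show m * (p * s') = p * (m * s') by ring]
          exact Nat.mul_dvd_mul_left p h
        have hco : (m * s').Coprime p := ((Nat.Prime.coprime_iff_not_dvd hp).2 hpn).symm
        obtain ⟨e, he0, he1⟩ := Nat.chineseRemainder hco 0 1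
        have he0' : m * s' ∣ e := (Nat.modEq_zero_iff_dvd).1 he0
        have hpe : ¬ p ∣ e := by
          intro h
          have h1 : 0 ≡ 1 [MOD p] := ((Nat.modEq_zero_iff_dvd).2 h).symm.trans he1
          have h2 : p ∣ 1 := (Nat.modEq_iff_dvd' (by norm_num)).1 h1
          exact hp.one_lt.ne' (Nat.dvd_one.1 h2)
        refine ⟨m * s', e, ?_, Nat.mul_pos hm0 hs', dvd_mul_right _ _,
          (dvd_mul_right _ _).trans he0', ?_, ?_⟩
        · apply Nat.mul_lt_mul_of_pos_left _ hm0
          exact lt_mul_left hs' hp.one_lt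
        · rw [show m * (p * s') = p * (m * s') by ring]
          rw [Nat.Coprime.gcd_mul_left_cancel_right (m * s') ]
          · exact Nat.gcd_dvd_right _ _
          · exact ((Nat.Prime.coprime_iff_not_dvd hp).2 hpe)
        · intro j hj
          rw [show m * (p * s') = p * (m * s') by ring]
          apply Nat.Coprime.mul_right
          · have h1 : 1 + j * e ≡ 1 + j [MOD p] := by
              have := (Nat.ModEq.mul_left j he1)
              rw [mul_one] at this
              exact Nat.ModEq.add_left 1 this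
            have h2 : (1 + j).Coprime p := by
              refine Nat.Coprime.symm ((Nat.Prime.coprime_iff_not_dvd hp).2 ?_)
              intro h
              have := Nat.le_of_dvd (by omega) h
              omega
            rw [Nat.Coprime, h1.gcd_eq]
            exact h2
          · have h1 : 1 + j * e ≡ 1 [MOD (m * s')] := by
              have h2 : j * e ≡ 0 [MOD (m * s')] :=
                (Nat.modEq_zero_iff_dvd).2 (Dvd.dvd.mul_left he0' j)
              simpa using Nat.ModEq.add_left 1 h2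
            rw [Nat.Coprime, h1.gcd_eq]
            simp
    obtain ⟨N', e, hN'lt, hN', hmN', hme, hgcd, hcop⟩ := hpe
    have hcl : ∀ j < Fintype.card U, ∑ u, (c u * ζ u) * (ζ u ^ e) ^ j = 0 := by
      intro j hj
      have ht : 1 + j * e ≡ 1 [MOD m] := by
        have h2 : j * e ≡ 0 [MOD m] := (Nat.modEq_zero_iff_dvd).2 (Dvd.dvd.mul_left hme j)
        simpa using Nat.ModEq.add_left 1 h2
      rw [← hgal (m * s) hN (dvd_mul_right _ _) (1 + j * e) (hcop j hj) ht ζ hζN Finset.univ hsum]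
      refine Finset.sum_congr rfl fun u _ => ?_
      rw [pow_add, pow_one, ← pow_mul, mul_comm e j]
      ring
    have hzero := class_sum_eq_zero _ _ hcl 1
    have hJ : (Finset.univ.filter fun u => ζ u ^ e = 1) = Finset.univ := by
      by_contra hne
      refine hmin _ ⟨u0, ?_⟩ hne hzero
      simp [hζ0]
    have hζe : ∀ u, ζ u ^ e = 1 := fun u => by
      have := hJ ▸ Finset.mem_univ u
      exact (Finset.mem_filter.1 this).2
    refine ih N' hN'lt hN' hmN' ζ hζ0 ?_ hsum hmin
    intro u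
    have h1 : ζ u ^ (Nat.gcd e (m * s)) = 1 := by
      rw [← orderOf_dvd_iff_pow_eq_one]
      exact Nat.dvd_gcd (orderOf_dvd_of_pow_eq_one (hζe u)) (orderOf_dvd_of_pow_eq_one (hζN u))
    obtain ⟨k, hk⟩ := hgcd
    rw [hk, pow_mul, h1, one_pow]
  intro ζ hζ hsum hmin u v
  have hζne : ∀ u, ζ u ≠ 0 := by
    intro u h0
    obtain ⟨n, hn, h⟩ := hζ u
    rw [h0, zero_pow hn.ne'] at h
    exact zero_ne_one h
  choose n hn hζn using hζ
  have h1 := key v (m * ∏ u, n u) (Nat.mul_pos hm0 (Finset.prod_pos fun u _ => hn u))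
    (dvd_mul_right _ _) (fun u => ζ u / ζ v) (div_self (hζne v)) ?_ ?_ ?_ u
  · rw [div_pow, div_eq_one_iff_eq (pow_ne_zero _ (hζne v))] at h1
    exact h1
  · intro u
    have h2 : ∀ u, ζ u ^ (m * ∏ u, n u) = 1 := by
      intro u
      obtain ⟨k, hk⟩ := Finset.dvd_prod_of_mem n (Finset.mem_univ u)
      rw [hk, show m * (n u * k) = n u * (m * k) by ring, pow_mul, hζn, one_pow]
    rw [div_pow, h2, h2, div_one]
  · have : ∑ u, c u * (ζ u / ζ v) = (∑ u, c u * ζ u) / ζ v := by
      rw [Finset.sum_div]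
      exact Finset.sum_congr rfl fun u _ => by ring
    rw [this, hsum, zero_div]
  · intro J hJ hJ'
    have : ∑ u ∈ J, c u * (ζ u / ζ v) = (∑ u ∈ J, c u * ζ u) / ζ v := by
      rw [Finset.sum_div]
      exact Finset.sum_congr rfl fun u _ => by ring
    rw [this]
    exact div_ne_zero (hmin J hJ hJ') (hζne v)

end Pool.Agent.Helper9
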