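import Mathlib

namespace Pool.Agent.Helper9.MACoding

open Complex

noncomputable section

/-- quantised value -/
def quant (n : ℕ) (M r : ℝ) : Fin (4 * 8 ^ n) :=
  ⟨min (Int.toNat (⌊r * 2 ^ n / M⌋ + 8 ^ n)) (4 * 8 ^ n - 1), by
    have : 0 < 4 * 8 ^ n := by positivity
    omega⟩

lemma quant_eq {n : ℕ} {M : ℝ} (hM : 0 < M) {r s : ℝ} (hr : |r| ≤ M * 4 ^ n)
    (hs : |s| ≤ M * 4 ^ n) (h : quant n M r = quant n M s) : |r - s| ≤ M / 2 ^ n := by
  have key : ∀ t : ℝ, |t| ≤ M * 4 ^ n →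
      -(8 : ℤ) ^ n ≤ ⌊t * 2 ^ n / M⌋ ∧ ⌊t * 2 ^ n / M⌋ ≤ (8 : ℤ) ^ n := by
    intro t ht
    have h8 : (8 : ℝ) ^ n = 4 ^ n * 2 ^ n := by rw [← mul_pow]; norm_num
    have ht' := abs_le.1 ht
    constructor
    · rw [Int.le_floor]
      push_cast
      rw [le_div_iff₀ hM, h8]
      have : (0 : ℝ) < 2 ^ n := by positivity
      nlinarith [ht'.1]
    · have : t * 2 ^ n / M ≤ 8 ^ n := by
        rw [div_le_iff₀ hM, h8]
        have : (0 : ℝ) < 2 ^ n := by positivity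
        nlinarith [ht'.2]
      have h2 := (Int.floor_le (t * 2 ^ n / M)).trans this
      exact_mod_cast h2
  have h1 := key r hr
  have h2 := key s hs
  have h3 : ⌊r * 2 ^ n / M⌋ = ⌊s * 2 ^ n / M⌋ := by
    have h4 := congrArg Fin.val h
    simp only [quant] at h4
    have h8 : ((8 ^ n : ℕ) : ℤ) = (8 : ℤ) ^ n := by push_cast; rfl
    have hpos : 0 < 8 ^ n := by positivity
    rw [← h8] at h1 h2 h4
    omega
  have h5 := Int.abs_sub_lt_one_of_floor_eq_floor h3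
  rw [← sub_div, ← sub_mul, abs_div, abs_of_pos hM, abs_mul, abs_of_pos (by positivity : (0 : ℝ) < 2 ^ n),
    div_lt_one hM] at h5
  rw [le_div_iff₀ (by positivity)]
  exact h5.le

/-- Taylor coefficient -/
def tc (F : ℂ → ℂ) (c : ℂ) (m : ℕ) : ℂ := iteratedDeriv m F c / (m.factorial : ℂ)

/-- centre -/
def ctr (x0 : ℝ) (K : ℕ) (k : Fin (2 * K + 1)) : ℂ :=
  x0 + (((k : ℝ) - K) / 4 : ℝ) * Complex.I

/-- the domain -/
def dom (x0 : ℝ) (K : ℕ) : Set ℂ := {z | |z.re - x0| < 1 / 2 ∧ |z.im| < K / 4 + 1}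

lemma ball_sub (x0 : ℝ) (K : ℕ) (k : Fin (2 * K + 1)) :
    Metric.closedBall (ctr x0 K k) (1 / 4) ⊆ dom x0 K := by
  intro z hz
  rw [Metric.mem_closedBall, Complex.dist_eq] at hz
  have h1 := (Complex.abs_re_le_norm (z - ctr x0 K k)).trans hz
  have h2 := (Complex.abs_im_le_norm (z - ctr x0 K k)).trans hz
  have hre : (ctr x0 K k).re = x0 := by simp [ctr]
  have him : (ctr x0 K k).im = ((k : ℝ) - K) / 4 := by
    simp [ctr]
  rw [Complex.sub_re, hre] at h1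
  rw [Complex.sub_im, him] at h2
  have hk : ((k : ℕ) : ℝ) ≤ 2 * K := by
    have := k.2
    have h3 : (k : ℕ) ≤ 2 * K := by omega
    exact_mod_cast h3
  have hk0 : (0 : ℝ) ≤ ((k : ℕ) : ℝ) := by positivity
  rw [abs_le] at h1 h2
  refine ⟨abs_lt.2 ⟨by linarith [h1.1], by linarith [h1.2]⟩,
    abs_lt.2 ⟨by linarith [h2.1], by linarith [h2.2]⟩⟩

lemma dom_open (x0 : ℝ) (K : ℕ) : IsOpen (dom x0 K) := by
  have h1 : IsOpen {z : ℂ | |z.re - x0| < 1 / 2} :=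
    isOpen_lt (by fun_prop) continuous_const
  have h2 : IsOpen {z : ℂ | |z.im| < K / 4 + 1} :=
    isOpen_lt (by fun_prop) continuous_const
  exact h1.inter h2

lemma tc_bound {x0 : ℝ} {K : ℕ} {M : ℝ} {F : ℂ → ℂ} (hF : DifferentiableOn ℂ F (dom x0 K))
    (hb : ∀ z : ℂ, |z.re - x0| < 1 / 2 → |z.im| < K / 4 + 1 → ‖F z‖ ≤ M)
    (k : Fin (2 * K + 1)) (m : ℕ) : ‖tc F (ctr x0 K k) m‖ ≤ M * 4 ^ m := by
  have hd : DiffContOnCl ℂ F (Metric.ball (ctr x0 K k) (1 / 4)) := by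
    apply DifferentiableOn.diffContOnCl
    rw [closure_ball _ (by norm_num)]
    exact hF.mono (ball_sub x0 K k)
  have h1 := Complex.norm_iteratedDeriv_le_of_forall_mem_sphere_norm_le m
    (by norm_num : (0 : ℝ) < 1 / 4) hd (C := M) (by
      intro z hz
      have := ball_sub x0 K k (Metric.sphere_subset_closedBall hz)
      exact hb z this.1 this.2)
  rw [tc, norm_div, Complex.norm_natCast, div_le_iff₀ (by positivity)]
  refine h1.trans (le_of_eq ?_)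
  rw [one_div, inv_pow]
  field_simp

lemma sum_bound {x0 : ℝ} {K n : ℕ} {M : ℝ} (hM : 0 < M) {F1 F2 : ℂ → ℂ}
    (hF1 : DifferentiableOn ℂ F1 (dom x0 K))
    (hb1 : ∀ z : ℂ, |z.re - x0| < 1 / 2 → |z.im| < K / 4 + 1 → ‖F1 z‖ ≤ M)
    (hF2 : DifferentiableOn ℂ F2 (dom x0 K))
    (hb2 : ∀ z : ℂ, |z.re - x0| < 1 / 2 → |z.im| < K / 4 + 1 → ‖F2 z‖ ≤ M)
    (k : Fin (2 * K + 1))
    (h : ∀ m < n, ‖tc F1 (ctr x0 K k) m - tc F2 (ctr x0 K k) m‖ ≤ 2 * M / 2 ^ n)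
    (z : ℂ) (hz : ‖z - ctr x0 K k‖ ≤ 1 / 8) : ‖F1 z - F2 z‖ ≤ 7 * M / 2 ^ n := by
  set c := ctr x0 K k with hc
  have hzb : z ∈ Metric.ball c (1 / 4) := by
    rw [Metric.mem_ball, Complex.dist_eq]; linarith
  have hs : ∀ F : ℂ → ℂ, DifferentiableOn ℂ F (dom x0 K) →
      HasSum (fun m => (z - c) ^ m * tc F c m) (F z) := by
    intro F hF
    have := Complex.hasSum_taylorSeries_on_ball
      (hF.mono ((Metric.ball_subset_closedBall).trans (ball_sub x0 K k))) hzb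
    have e : (fun m => (z - c) ^ m * tc F c m) =
        fun m => ((m.factorial : ℂ))⁻¹ • (z - c) ^ m • iteratedDeriv m F c := by
      ext m
      simp only [tc, smul_eq_mul, div_eq_mul_inv]
      ring
    rw [e]
    exact this
  have h1 := (hs F1 hF1).sub (hs F2 hF2)
  -- bounding series
  have hg1 : HasSum (fun m : ℕ => 2 * M / 2 ^ n * (1 / 8 : ℝ) ^ m) (2 * M / 2 ^ n * (8 / 7)) := by
    have := (hasSum_geometric_of_lt_one (by norm_num : (0 : ℝ) ≤ 1 / 8) (by norm_num)).mul_left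
      (2 * M / 2 ^ n)
    have e : (1 - 1 / 8 : ℝ)⁻¹ = 8 / 7 := by norm_num
    rw [e] at this
    exact this
  have hg2 : HasSum (fun m : ℕ => if m < n then (0 : ℝ) else 2 * M * (1 / 2) ^ m)
      (2 * M * (1 / 2) ^ n * 2) := by
    rw [← hasSum_nat_add_iff' n]
    have hz0 : ∑ i ∈ Finset.range n, (if i < n then (0 : ℝ) else 2 * M * (1 / 2) ^ i) = 0 := by
      apply Finset.sum_eq_zero
      intro i hi
      rw [if_pos (Finset.mem_range.1 hi)]
    rw [hz0, sub_zero]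
    have := (hasSum_geometric_of_lt_one (by norm_num : (0 : ℝ) ≤ 1 / 2) (by norm_num)).mul_left
      (2 * M * (1 / 2) ^ n)
    have e : (1 - 1 / 2 : ℝ)⁻¹ = 2 := by norm_num
    rw [e] at this
    have e2 : (fun m : ℕ => if m + n < n then (0 : ℝ) else 2 * M * (1 / 2) ^ (m + n)) =
        fun i : ℕ => 2 * M * (1 / 2) ^ n * (1 / 2) ^ i := by
      ext m
      rw [if_neg (by omega), pow_add]
      ring
    rw [e2]
    exact this
  have h2 := tsum_of_norm_bounded (hg1.add hg2) (f := fun m => (z - c) ^ m * tc F1 c m - (z - c) ^ m * tc F2 c m) (by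
    intro m
    rw [← mul_sub, norm_mul, norm_pow]
    have hp : ‖z - c‖ ^ m ≤ (1 / 8 : ℝ) ^ m := pow_le_pow_left₀ (norm_nonneg _) hz m
    by_cases hm : m < n
    · rw [if_pos hm, add_zero]
      calc ‖z - c‖ ^ m * ‖tc F1 c m - tc F2 c m‖ ≤ (1 / 8 : ℝ) ^ m * (2 * M / 2 ^ n) :=
            mul_le_mul hp (h m hm) (norm_nonneg _) (by positivity)
        _ = _ := by ring
    · rw [if_neg hm]
      have h3 : ‖tc F1 c m - tc F2 c m‖ ≤ 2 * M * 4 ^ m := by
        refine (norm_sub_le _ _).trans ?_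
        have := tc_bound hF1 hb1 k m
        have := tc_bound hF2 hb2 k m
        linarith
      have h4 : 0 ≤ 2 * M / 2 ^ n * (1 / 8 : ℝ) ^ m := by positivity
      calc ‖z - c‖ ^ m * ‖tc F1 c m - tc F2 c m‖ ≤ (1 / 8 : ℝ) ^ m * (2 * M * 4 ^ m) :=
            mul_le_mul hp h3 (norm_nonneg _) (by positivity)
        _ = 2 * M * (1 / 2) ^ m := by
            have : (1 / 2 : ℝ) ^ m = (1 / 8) ^ m * 4 ^ m := by rw [← mul_pow]; norm_num
            rw [this]; ring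
        _ ≤ _ := by linarith)
  rw [h1.tsum_eq] at h2
  refine h2.trans ?_
  have : (1 / 2 : ℝ) ^ n = 1 / 2 ^ n := by rw [one_div, inv_pow, one_div]
  rw [this]
  have h5 : 0 < M / 2 ^ n := by positivity
  have h6 : 2 * M / 2 ^ n * (8 / 7) + 2 * M * (1 / 2 ^ n) * 2 = M / 2 ^ n * (44 / 7) := by ring
  rw [h6]
  have h7 : 7 * M / 2 ^ n = M / 2 ^ n * 7 := by ring
  rw [h7]
  nlinarith

/-- codes of bounded holomorphic functions -/
theorem coding (x0 : ℝ) (K n : ℕ) (M : ℝ) (hM : 0 < M) :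
  ∃ (T : Type) (_ : Fintype T) (code : (ℂ → ℂ) → T), Fintype.card T ≤ (4 * 8 ^ n) ^ (2 * n * (2 * K + 1)) ∧
    ∀ F1 F2 : ℂ → ℂ,
      (DifferentiableOn ℂ F1 {z | |z.re - x0| < 1 / 2 ∧ |z.im| < K / 4 + 1} ∧ ∀ z : ℂ, |z.re - x0| < 1 / 2 → |z.im| < K / 4 + 1 → ‖F1 z‖ ≤ M) →
      (DifferentiableOn ℂ F2 {z | |z.re - x0| < 1 / 2 ∧ |z.im| < K / 4 + 1} ∧ ∀ z : ℂ, |z.re - x0| < 1 / 2 → |z.im| < K / 4 + 1 → ‖F2 z‖ ≤ M) →
      code F1 = code F2 → ∀ q : ℝ, |q| ≤ K / 4 → ‖F1 (x0 + q * Complex.I) - F2 (x0 + q * Complex.I)‖ ≤ 7 * M / 2 ^ n := by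
  refine ⟨Fin (2 * K + 1) → Fin n → Bool → Fin (4 * 8 ^ n), inferInstance,
    fun F k m b => quant n M (if b then (tc F (ctr x0 K k) m).re else (tc F (ctr x0 K k) m).im),
    ?_, ?_⟩
  · simp only [Fintype.card_fun, Fintype.card_fin, Fintype.card_bool]
    apply le_of_eq
    rw [← pow_mul, ← pow_mul, mul_assoc]
  · rintro F1 F2 ⟨hF1, hb1⟩ ⟨hF2, hb2⟩ hcode q hq
    -- nearest centre
    obtain ⟨k, hk⟩ : ∃ k : Fin (2 * K + 1), |q - ((k : ℝ) - K) / 4| ≤ 1 / 8 := by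
      rw [abs_le] at hq
      have h0 : 0 ≤ 4 * q + K + 1 / 2 := by linarith [hq.1]
      refine ⟨⟨⌊4 * q + K + 1 / 2⌋₊, ?_⟩, ?_⟩
      · rw [Nat.floor_lt h0]
        push_cast
        linarith [hq.2]
      · have h1 := Nat.floor_le h0
        have h2 := Nat.lt_floor_add_one (4 * q + K + 1 / 2)
        simp only
        rw [abs_le]
        constructor <;> linarith
    have hz : ‖((x0 : ℂ) + q * Complex.I) - ctr x0 K k‖ ≤ 1 / 8 := by
      have e : ((x0 : ℂ) + q * Complex.I) - ctr x0 K k =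
          ((q - ((k : ℝ) - K) / 4 : ℝ) : ℂ) * Complex.I := by
        simp only [ctr]
        push_cast
        ring
      rw [e, norm_mul, Complex.norm_I, mul_one, Complex.norm_real, Real.norm_eq_abs]
      exact hk
    refine sum_bound hM hF1 hb1 hF2 hb2 k ?_ _ hz
    intro m hm
    have hc1 := congrFun (congrFun (congrFun hcode k) ⟨m, hm⟩) true
    have hc2 := congrFun (congrFun (congrFun hcode k) ⟨m, hm⟩) false
    simp only [if_true, Bool.false_eq_true, if_false] at hc1 hc2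
    have hm4 : (4 : ℝ) ^ m ≤ 4 ^ n := pow_le_pow_right₀ (by norm_num) hm.le
    have hb1' : ‖tc F1 (ctr x0 K k) m‖ ≤ M * 4 ^ n :=
      (tc_bound hF1 hb1 k m).trans (by nlinarith)
    have hb2' : ‖tc F2 (ctr x0 K k) m‖ ≤ M * 4 ^ n :=
      (tc_bound hF2 hb2 k m).trans (by nlinarith)
    have hr := quant_eq hM ((Complex.abs_re_le_norm _).trans hb1')
      ((Complex.abs_re_le_norm _).trans hb2') hc1
    have hi := quant_eq hM ((Complex.abs_im_le_norm _).trans hb1')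
      ((Complex.abs_im_le_norm _).trans hb2') hc2
    rw [← Complex.sub_re] at hr
    rw [← Complex.sub_im] at hi
    refine (Complex.norm_le_abs_re_add_abs_im _).trans ((add_le_add hr hi).trans (le_of_eq ?_))
    ring

end

end Pool.Agent.Helper9.MACoding
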