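import Mathlib
import Pool.Agent.Helper47.MA.Defs
import Pool.Agent.Helper47.MA.Pattern
import Pool.Agent.Helper47.MA.Interface

set_option autoImplicit false

namespace Pool.Agent.Helper9.MA

open Set Real Pool.Agent.Helper47.MA

variable {E : Type*} [NormedAddCommGroup E] [NormedSpace ℝ E]

/-- all derivatives up to order `N` are at most `C * R ^ n` -/
def Bd (N : ℕ) (C R : ℝ) (f : E → ℝ) : Prop :=
  ContDiff ℝ (↑(⊤ : ℕ∞)) f ∧ ∀ n ≤ N, ∀ z, ‖iteratedFDeriv ℝ n f z‖ ≤ C * R ^ n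

/-- all derivatives of order between `1` and `N` are at most `R ^ n` -/
def Dd (N : ℕ) (R : ℝ) (f : E → ℝ) : Prop :=
  ContDiff ℝ (↑(⊤ : ℕ∞)) f ∧ ∀ n ≤ N, 1 ≤ n → ∀ z, ‖iteratedFDeriv ℝ n f z‖ ≤ R ^ n

lemma nat_le_top (n : ℕ) : (n : WithTop ℕ∞) ≤ ((⊤ : ℕ∞) : WithTop ℕ∞) := by
  exact_mod_cast le_top

lemma Bd.mono {N : ℕ} {C C' R R' : ℝ} {f : E → ℝ} (h : Bd N C R f) (hC : 0 ≤ C) (hR : 0 ≤ R)
    (hCC : C ≤ C') (hRR : R ≤ R') : Bd N C' R' f := by
  refine ⟨h.1, fun n hn z => (h.2 n hn z).trans ?_⟩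
  exact mul_le_mul hCC (pow_le_pow_left₀ hR hRR n) (by positivity) (hC.trans hCC)

lemma Bd.toDd {N : ℕ} {C R : ℝ} {f : E → ℝ} (h : Bd N C R f) (hC : 1 ≤ C) (hR : 0 ≤ R) :
    Dd N (C * R) f := by
  refine ⟨h.1, fun n hn h1 z => (h.2 n hn z).trans ?_⟩
  rw [mul_pow]
  apply mul_le_mul_of_nonneg_right _ (by positivity)
  exact le_self_pow₀ hC (by omega)

lemma Bd.add {N : ℕ} {C C' R : ℝ} {f g : E → ℝ} (h : Bd N C R f) (h' : Bd N C' R g) :
    Bd N (C + C') R (fun z => f z + g z) := by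
  refine ⟨h.1.add h'.1, fun n hn z => ?_⟩
  have e : iteratedFDeriv ℝ n (fun z => f z + g z) z =
      iteratedFDeriv ℝ n f z + iteratedFDeriv ℝ n g z := by
    have := iteratedFDeriv_add_apply (𝕜 := ℝ) (i := n) (x := z)
      ((h.1.of_le (nat_le_top n)).contDiffAt) ((h'.1.of_le (nat_le_top n)).contDiffAt)
    exact this
  rw [e, add_mul]
  exact (norm_add_le _ _).trans (add_le_add (h.2 n hn z) (h'.2 n hn z))

lemma Bd.const {N : ℕ} (c : ℝ) {R : ℝ} (hR : 0 ≤ R) : Bd N |c| R (fun _ : E => c) := by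
  refine ⟨contDiff_const, fun n hn z => ?_⟩
  rcases n with _ | n
  · simp
  · rw [iteratedFDeriv_succ_const]
    simp only [Pi.zero_apply, norm_zero]
    positivity

lemma Bd.mul {N : ℕ} {C C' R : ℝ} {f g : E → ℝ} (h : Bd N C R f) (h' : Bd N C' R g)
    (hC : 0 ≤ C) (hC' : 0 ≤ C') (hR : 0 ≤ R) :
    Bd N (2 ^ N * (C * C')) R (fun z => f z * g z) := by
  refine ⟨h.1.mul h'.1, fun n hn z => ?_⟩
  refine (norm_iteratedFDeriv_mul_le h.1 h'.1 z (nat_le_top n)).trans ?_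
  have h1 : ∀ i ∈ Finset.range (n + 1), (n.choose i : ℝ) * ‖iteratedFDeriv ℝ i f z‖ *
      ‖iteratedFDeriv ℝ (n - i) g z‖ ≤ (n.choose i : ℝ) * (C * C' * R ^ n) := by
    intro i hi
    have hi' : i ≤ n := by
      have := Finset.mem_range.1 hi
      omega
    rw [mul_assoc]
    apply mul_le_mul_of_nonneg_left _ (by positivity)
    calc ‖iteratedFDeriv ℝ i f z‖ * ‖iteratedFDeriv ℝ (n - i) g z‖
        ≤ (C * R ^ i) * (C' * R ^ (n - i)) :=
          mul_le_mul (h.2 i (hi'.trans hn) z) (h'.2 (n - i) ((Nat.sub_le _ _).trans hn) z)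
            (norm_nonneg _) (by positivity)
      _ = C * C' * (R ^ i * R ^ (n - i)) := by ring
      _ = C * C' * R ^ n := by rw [← pow_add, Nat.add_sub_cancel' hi']
  refine (Finset.sum_le_sum h1).trans ?_
  rw [← Finset.sum_mul]
  have h2 : (∑ i ∈ Finset.range (n + 1), (n.choose i : ℝ)) = 2 ^ n := by
    exact_mod_cast Nat.sum_range_choose n
  rw [h2]
  have h3 : (2 : ℝ) ^ n ≤ 2 ^ N := pow_le_pow_right₀ (by norm_num) hn
  calc (2 : ℝ) ^ n * (C * C' * R ^ n) ≤ 2 ^ N * (C * C' * R ^ n) :=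
        mul_le_mul_of_nonneg_right h3 (by positivity)
    _ = _ := by ring

lemma Bd.const_mul {N : ℕ} {C R : ℝ} {f : E → ℝ} (h : Bd N C R f) (c : ℝ) :
    Bd N (|c| * C) R (fun z => c * f z) := by
  refine ⟨contDiff_const.mul h.1, fun n hn z => ?_⟩
  have e : iteratedFDeriv ℝ n (fun z => c * f z) z = c • iteratedFDeriv ℝ n f z := by
    have := iteratedFDeriv_const_smul_apply (𝕜 := ℝ) (i := n) (a := c) (x := z)
      (f := f) ((h.1.of_le (nat_le_top n)).contDiffAt)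
    exact this
  rw [e, norm_smul, Real.norm_eq_abs, mul_assoc]
  exact mul_le_mul_of_nonneg_left (h.2 n hn z) (abs_nonneg _)

lemma Bd.sum {N : ℕ} {C R : ℝ} {D : ℕ} {f : Fin D → E → ℝ} (h : ∀ j, Bd N C R (f j))
    (hR : 0 ≤ R) : Bd N (D * C) R (fun z => ∑ j, f j z) := by
  induction D with
  | zero =>
    have := Bd.const (E := E) (N := N) 0 hR
    simpa using this
  | succ D ih =>
    have h1 := ih (f := fun j => f j.castSucc) (fun j => h _)
    have h2 := h1.add (h (Fin.last D))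
    have e : (fun z => ∑ j, f j z) = fun z => (∑ j : Fin D, f j.castSucc z) + f (Fin.last D) z := by
      ext z
      rw [Fin.sum_univ_castSucc]
    rw [e]
    have e2 : ((D + 1 : ℕ) : ℝ) * C = D * C + C := by push_cast; ring
    rw [e2]
    exact h2

lemma Bd.comp {N : ℕ} {C R R' : ℝ} {g : ℝ → ℝ} {f : E → ℝ} (hg : Bd N C R g) (hf : Dd N R' f)
    (hC : 0 ≤ C) (hR : 1 ≤ R) (hR' : 0 ≤ R') :
    Bd N (N.factorial * C) (R * R') (fun z => g (f z)) := by
  refine ⟨hg.1.comp hf.1, fun n hn z => ?_⟩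
  have h1 := norm_iteratedFDeriv_comp_le (𝕜 := ℝ) hg.1 hf.1 (nat_le_top n) z
    (C := C * R ^ n) (D := R')
    (fun i hi => (hg.2 i (hi.trans hn) _).trans
      (mul_le_mul_of_nonneg_left (pow_le_pow_right₀ hR hi) hC))
    (fun i h1 hi => hf.2 i (hi.trans hn) h1 z)
  refine h1.trans ?_
  have h2 : ((n.factorial : ℕ) : ℝ) ≤ N.factorial := by
    exact_mod_cast Nat.factorial_le hn
  calc (n.factorial : ℝ) * (C * R ^ n) * R' ^ n ≤ N.factorial * (C * R ^ n) * R' ^ n := by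
        apply mul_le_mul_of_nonneg_right _ (by positivity)
        apply mul_le_mul_of_nonneg_right h2 (by positivity)
    _ = _ := by rw [mul_pow]; ring

lemma Dd.affine {N : ℕ} (L : E →L[ℝ] ℝ) (b : ℝ) {R : ℝ} (hL : ‖L‖ ≤ R) :
    Dd N R (fun z => L z + b) := by
  have hR : 0 ≤ R := (norm_nonneg _).trans hL
  refine ⟨L.contDiff.add contDiff_const, fun n hn h1 z => ?_⟩
  obtain ⟨m, rfl⟩ : ∃ m, n = m + 1 := ⟨n - 1, by omega⟩
  rw [← norm_iteratedFDeriv_fderiv]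
  have e : fderiv ℝ (fun z => L z + b) = fun _ => L := by
    ext1 z
    rw [fderiv_add_const]
    exact L.fderiv
  rw [e]
  rcases m with _ | m
  · simpa using hL
  · rw [iteratedFDeriv_succ_const]
    simp only [Pi.zero_apply, norm_zero]
    positivity

/-- compactly supported functions are bounded with rate one -/
lemma exists_bd_of_compact {f : E → ℝ} [FiniteDimensional ℝ E] (hf : ContDiff ℝ (↑(⊤ : ℕ∞)) f)
    (hs : HasCompactSupport f) (N : ℕ) : ∃ C, 1 ≤ C ∧ Bd N C 1 f := by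
  have h1 : ∀ n : ℕ, ∃ C, 0 ≤ C ∧ ∀ z, ‖iteratedFDeriv ℝ n f z‖ ≤ C := by
    intro n
    obtain ⟨C, hC⟩ := (hf.continuous_iteratedFDeriv
      (by exact_mod_cast le_top : (n : WithTop ℕ∞) ≤ ((⊤ : ℕ∞) : WithTop ℕ∞))).bounded_above_of_compact_support (hs.iteratedFDeriv (𝕜 := ℝ) n)
    exact ⟨C, (norm_nonneg _).trans (hC 0), hC⟩
  choose C hC0 hC using h1
  refine ⟨1 + ∑ n ∈ Finset.range (N + 1), C n, ?_, hf, fun n hn z => ?_⟩
  · have : 0 ≤ ∑ n ∈ Finset.range (N + 1), C n := Finset.sum_nonneg fun i _ => hC0 i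
    linarith
  · rw [one_pow, mul_one]
    have : C n ≤ ∑ n ∈ Finset.range (N + 1), C n :=
      Finset.single_le_sum (fun i _ => hC0 i) (Finset.mem_range.2 (by omega))
    exact (hC n z).trans (by linarith)

/-- one variable: from the derivative -/
lemma bd_of_deriv {N : ℕ} {C : ℝ} {f : ℝ → ℝ} (hf : ContDiff ℝ (↑(⊤ : ℕ∞)) f)
    (h0 : ∀ x, |f x| ≤ C) (h1 : Bd N C 1 (deriv f)) : Bd N C 1 f := by
  refine ⟨hf, fun n hn z => ?_⟩
  rcases n with _ | n
  · simpa using h0 z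
  · rw [norm_iteratedFDeriv_eq_norm_iteratedDeriv, iteratedDeriv_succ',
      ← norm_iteratedFDeriv_eq_norm_iteratedDeriv]
    have := h1.2 n (by omega) z
    simpa using this

lemma hcs_of {f : ℝ → ℝ} (R : ℝ) (h : ∀ x, R ≤ |x| → f x = 0) : HasCompactSupport f := by
  apply HasCompactSupport.of_support_subset_isCompact (isCompact_Icc (a := -R) (b := R))
  intro x hx
  by_contra hx'
  apply hx
  apply h
  rw [Set.mem_Icc, not_and_or, not_le, not_le] at hx'
  rcases hx' with hx' | hx'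
  · rw [le_abs]; right; linarith
  · rw [le_abs]; left; linarith

lemma exists_bmp (N : ℕ) : ∃ C, 1 ≤ C ∧ Bd N C 1 bmp :=
  exists_bd_of_compact bmp_contDiff (hcs_of 1 fun _ h => bmp_zero h) N

lemma exists_wl (N : ℕ) : ∃ C, 1 ≤ C ∧ Bd N C 1 wl :=
  exists_bd_of_compact wl_contDiff (hcs_of (1 / 2) fun _ h => wl_zero h) N

/-- the derivative of the smooth step -/
noncomputable def st' : ℝ → ℝ := deriv Real.smoothTransition

lemma st'_contDiff : ContDiff ℝ (↑(⊤ : ℕ∞)) st' := by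
  have h : ContDiff ℝ (↑(⊤ : ℕ∞)) Real.smoothTransition := Real.smoothTransition.contDiff
  exact (contDiff_infty_iff_deriv.1 h).2

lemma exists_st' (N : ℕ) : ∃ C, 1 ≤ C ∧ Bd N C 1 st' := by
  apply exists_bd_of_compact st'_contDiff
  apply hcs_of 2
  intro x hx
  rcases le_abs.1 hx with h | h
  · apply IsLocalMax.deriv_eq_zero
    apply Filter.Eventually.of_forall
    intro y
    have e := Real.smoothTransition.one_of_one_le (x := x) (by linarith)
    rw [e]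
    exact Real.smoothTransition.le_one y
  · exact deriv_st_zero (by linarith)

lemma exists_st (N : ℕ) : ∃ C, 1 ≤ C ∧ Bd N C 1 Real.smoothTransition := by
  obtain ⟨C, h1, hC⟩ := exists_st' N
  refine ⟨C, h1, bd_of_deriv Real.smoothTransition.contDiff (fun x => ?_) hC⟩
  rw [abs_of_nonneg (Real.smoothTransition.nonneg x)]
  exact (Real.smoothTransition.le_one x).trans h1

lemma bd_cos (N : ℕ) : Bd N 1 1 Real.cos := by
  refine ⟨Real.contDiff_cos, fun n hn z => ?_⟩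
  rw [norm_iteratedFDeriv_eq_norm_iteratedDeriv, one_pow, mul_one]
  exact Real.abs_iteratedDeriv_cos_le_one n z

lemma bd_sin (N : ℕ) : Bd N 1 1 Real.sin := by
  refine ⟨Real.contDiff_sin, fun n hn z => ?_⟩
  rw [norm_iteratedFDeriv_eq_norm_iteratedDeriv, one_pow, mul_one]
  exact Real.abs_iteratedDeriv_sin_le_one n z

lemma dd_mul (N : ℕ) (a b : ℝ) {R : ℝ} (hR : |a| ≤ R) : Dd N R (fun s : ℝ => a * s + b) := by
  have := Dd.affine (E := ℝ) (N := N) (a • ContinuousLinearMap.id ℝ ℝ) b (R := R) (by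
    refine (norm_smul_le a (ContinuousLinearMap.id ℝ ℝ)).trans ?_
    rw [Real.norm_eq_abs]
    refine le_trans ?_ hR
    exact mul_le_of_le_one_right (abs_nonneg _) ContinuousLinearMap.norm_id_le)
  simpa using this

lemma pi_mul_bd (N : ℕ) {g : ℝ → ℝ} (hg : Bd N 1 1 g) : Bd N N.factorial 4 (fun s => g (π * s)) := by
  have h1 := dd_mul N π 0 (R := 4) (by rw [abs_of_pos Real.pi_pos]; exact Real.pi_le_four)
  have h2 := hg.comp h1 (by norm_num) le_rfl (by norm_num)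
  simpa using h2

lemma exists_mper (N : ℕ) : ∃ C, 1 ≤ C ∧ Bd N C C mper := by
  obtain ⟨C, h1, hC⟩ := exists_st N
  have h2 := pi_mul_bd N (bd_cos N)
  have h3 := (h2.const_mul (3 / 2)).add (Bd.const (E := ℝ) (N := N) 1 (by norm_num : (0:ℝ) ≤ 4))
  have hf : (1 : ℝ) ≤ N.factorial := by exact_mod_cast Nat.factorial_pos N
  have h3' : Dd N ((|(3 / 2 : ℝ)| * N.factorial + |(1 : ℝ)|) * 4)
      (fun s => 1 + 3 / 2 * Real.cos (π * s)) := by
    have h4 := h3.toDd (by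
      rw [abs_of_pos (by norm_num : (0 : ℝ) < 3 / 2), abs_one]; nlinarith) (by norm_num)
    have e : (fun s : ℝ => 1 + 3 / 2 * Real.cos (π * s)) =
        fun s => 3 / 2 * Real.cos (π * s) + 1 := by ext s; ring
    rw [e]
    exact h4
  have h5 := hC.comp h3' (by linarith) le_rfl (by positivity)
  set R := 1 * ((|(3 / 2 : ℝ)| * N.factorial + |(1 : ℝ)|) * 4) with hRdef
  have hR0 : 0 ≤ R := by positivity
  have hfC : 1 ≤ N.factorial * C := by nlinarith
  refine ⟨N.factorial * C + R, by linarith, ?_⟩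
  exact h5.mono (by positivity) hR0 (by linarith) (by linarith)

lemma exists_tau (N : ℕ) : ∃ C, 1 ≤ C ∧ Bd N C 1 tau := by
  have h1 : ContDiff ℝ (↑(⊤ : ℕ∞)) (fun x => tau x - 1) := tau_contDiff.sub contDiff_const
  obtain ⟨C, hC1, hC⟩ := exists_bd_of_compact h1 (hcs_of 12 (by
    intro x hx
    unfold tau
    rw [bmp_zero]
    · simp
    · rw [abs_div]; norm_num; linarith)) N
  have h2 := hC.add (Bd.const (E := ℝ) (N := N) 1 (by norm_num : (0:ℝ) ≤ 1))
  refine ⟨C + |1|, by rw [abs_one]; linarith, ?_⟩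
  simpa using h2

lemma Dd.add_const {N : ℕ} {R : ℝ} {f : E → ℝ} (h : Dd N R f) (c : ℝ) :
    Dd N R (fun z => f z + c) := by
  refine ⟨h.1.add contDiff_const, fun n hn h1 z => ?_⟩
  have e : iteratedFDeriv ℝ n (fun z => f z + c) z =
      iteratedFDeriv ℝ n f z + iteratedFDeriv ℝ n (fun _ => c) z := by
    have := iteratedFDeriv_add_apply (𝕜 := ℝ) (i := n) (x := z)
      ((h.1.of_le (nat_le_top n)).contDiffAt) ((contDiff_const (c := c)).contDiffAt)
    exact this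
  rw [e, iteratedFDeriv_const_of_ne (by omega)]
  simpa using h.2 n hn h1 z

lemma Bd.flat {N : ℕ} {C R : ℝ} {f : E → ℝ} (h : Bd N C R f) (hC : 0 ≤ C) (hR : 1 ≤ R) :
    Bd N (C * R ^ N) 1 f := by
  refine ⟨h.1, fun n hn z => (h.2 n hn z).trans ?_⟩
  rw [one_pow, mul_one]
  exact mul_le_mul_of_nonneg_left (pow_le_pow_right₀ hR hn) hC

lemma Bd.congr {N : ℕ} {C R : ℝ} {f g : E → ℝ} (h : Bd N C R f) (hfg : ∀ z, g z = f z) :
    Bd N C R g := by
  have : g = f := funext hfg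
  rw [this]; exact h

lemma Bd.fst {N : ℕ} {C R : ℝ} {f : ℝ → ℝ} (h : Bd N C R f) (hC : 0 ≤ C) (hR : 1 ≤ R) :
    Bd N (N.factorial * C) R (fun z : ℝ × ℝ => f z.1) := by
  have h1 := Dd.affine (N := N) (ContinuousLinearMap.fst ℝ ℝ ℝ) 0 (R := 1)
    (ContinuousLinearMap.norm_fst_le ℝ ℝ ℝ)
  have h2 := h.comp h1 hC hR zero_le_one
  simpa using h2

lemma Bd.snd {N : ℕ} {C R : ℝ} {f : ℝ → ℝ} (h : Bd N C R f) (hC : 0 ≤ C) (hR : 1 ≤ R) :
    Bd N (N.factorial * C) R (fun z : ℝ × ℝ => f z.2) := by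
  have h1 := Dd.affine (N := N) (ContinuousLinearMap.snd ℝ ℝ ℝ) 0 (R := 1)
    (ContinuousLinearMap.norm_snd_le ℝ ℝ ℝ)
  have h2 := h.comp h1 hC hR zero_le_one
  simpa using h2

/-- scaled argument -/
lemma Bd.scale {N : ℕ} {C R : ℝ} {f : ℝ → ℝ} (h : Bd N C R f) (hC : 0 ≤ C) (hR : 1 ≤ R)
    (a b : ℝ) : Bd N (N.factorial * C) (R * |a|) (fun s => f (a * s + b)) :=
  h.comp (dd_mul N a b le_rfl) hC hR (abs_nonneg a)

lemma exists_bs' (N : ℕ) : ∃ C, 1 ≤ C ∧ ∀ r : ℝ, 0 < r → r ≤ 1 / 2 →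
    Bd N (C / r ^ 2) (C / r ^ 2) (bs' r) := by
  obtain ⟨C, hC1, hC⟩ := exists_st' N
  have hf : (1 : ℝ) ≤ N.factorial := by exact_mod_cast Nat.factorial_pos N
  set F : ℝ := (N.factorial : ℝ) with hF
  refine ⟨2 ^ N * (F * C * (4 * F)) + 4 * F, ?_, ?_⟩
  · have : 0 ≤ 2 ^ N * (F * C * (4 * F)) := by positivity
    linarith
  intro r hr hr1
  have hr2 : 0 < r ^ 2 := by positivity
  have hr3 : r ^ 2 ≤ 1 := by nlinarith
  have hir : 1 ≤ 1 / r ^ 2 := by rw [le_div_iff₀ hr2]; linarith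
  have h1 := (pi_mul_bd N (bd_cos N)).const_mul (1 / r ^ 2)
  have h2 := (h1.toDd (by
    rw [abs_of_pos (by positivity)]
    nlinarith) (by norm_num)).add_const (2 - 1 / r ^ 2)
  have h3 := hC.comp h2 (by linarith) le_rfl (by positivity)
  have h4 := (pi_mul_bd N (bd_sin N)).const_mul (-π / r ^ 2)
  have hR0 : 1 * (|1 / r ^ 2| * F * 4) = 4 * F / r ^ 2 := by
    rw [abs_of_pos (by positivity)]
    ring
  rw [hR0] at h3
  have hR1 : (4 : ℝ) ≤ 4 * F / r ^ 2 := by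
    rw [le_div_iff₀ hr2]
    nlinarith
  have h5 : Bd N (4 * F / r ^ 2) (4 * F / r ^ 2) (fun s => -π / r ^ 2 * Real.sin (π * s)) := by
    refine h4.mono (by positivity) (by norm_num) ?_ hR1
    rw [abs_div, abs_neg, abs_of_pos Real.pi_pos, abs_of_pos hr2]
    rw [div_mul_eq_mul_div]
    apply div_le_div_of_nonneg_right _ hr2.le
    exact mul_le_mul_of_nonneg_right Real.pi_le_four (by positivity)
  have h6 := h3.mul h5 (by positivity) (by positivity) (by positivity)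
  refine (h6.mono (C' := (2 ^ N * (F * C * (4 * F)) + 4 * F) / r ^ 2)
    (R' := (2 ^ N * (F * C * (4 * F)) + 4 * F) / r ^ 2) (by positivity) (by positivity) ?_ ?_).congr ?_
  · have e : 2 ^ N * (F * C * (4 * F / r ^ 2)) = 2 ^ N * (F * C * (4 * F)) / r ^ 2 := by ring
    rw [e]
    apply div_le_div_of_nonneg_right _ hr2.le
    have : 0 ≤ 4 * F := by positivity
    linarith
  · apply div_le_div_of_nonneg_right _ hr2.le
    have : 0 ≤ 2 ^ N * (F * C * (4 * F)) := by positivity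
    linarith
  · intro s
    unfold bs' st'
    have e1 : 1 / r ^ 2 * Real.cos (π * s) + (2 - 1 / r ^ 2) =
        2 - (1 - Real.cos (π * s)) / r ^ 2 := by ring
    rw [e1]
    ring

/-- the smooth argument -/
noncomputable def Zf (V h : ℝ) (z : ℝ × ℝ) : ℝ := V / h * (tau z.1 * (z.2 * bmp (z.2 / 4)))

lemma exists_yb (N : ℕ) : ∃ C, 1 ≤ C ∧ Bd N C 1 (fun y : ℝ => y * bmp (y / 4)) := by
  apply exists_bd_of_compact
  · apply ContDiff.mul contDiff_id
    apply bmp_contDiff.comp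
    fun_prop
  · apply hcs_of 4
    intro x hx
    rw [bmp_zero, mul_zero]
    rw [abs_div]
    norm_num
    linarith

lemma exists_Zf (N : ℕ) : ∃ C, 1 ≤ C ∧ ∀ V h : ℝ, 1 ≤ V → 1 ≤ h → Dd N (C * V) (Zf V h) := by
  obtain ⟨C, hC1, hC⟩ := exists_tau N
  obtain ⟨C', hC1', hC'⟩ := exists_yb N
  have hf : (1 : ℝ) ≤ N.factorial := by exact_mod_cast Nat.factorial_pos N
  set F : ℝ := (N.factorial : ℝ) with hF
  have h1 := (hC.fst (by linarith) le_rfl).mul (hC'.snd (by linarith) le_rfl) (by positivity)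
    (by positivity) zero_le_one
  have h2N : (1 : ℝ) ≤ 2 ^ N := one_le_pow₀ (by norm_num)
  have hFC : 1 ≤ F * C := one_le_mul_of_one_le_of_one_le hf hC1
  have hFC' : 1 ≤ F * C' := one_le_mul_of_one_le_of_one_le hf hC1'
  have hA : 1 ≤ 2 ^ N * (F * C * (F * C')) :=
    one_le_mul_of_one_le_of_one_le h2N (one_le_mul_of_one_le_of_one_le hFC hFC')
  refine ⟨2 ^ N * (F * C * (F * C')), hA, ?_⟩
  intro V h hV hh
  have h3 := h1.const_mul (V / h)
  have hV0 : 0 ≤ V / h := by positivity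
  have h4 : Bd N (2 ^ N * (F * C * (F * C')) * V) 1 (Zf V h) := by
    refine h3.mono (by positivity) zero_le_one ?_ le_rfl
    rw [abs_of_nonneg hV0, mul_comm]
    apply mul_le_mul_of_nonneg_left _ (by positivity)
    exact div_le_self (by linarith) hh
  have h5 := h4.toDd (one_le_mul_of_one_le_of_one_le hA hV) zero_le_one
  rw [mul_one] at h5
  exact h5

end Pool.Agent.Helper9.MA
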