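import Mathlib
import Pool.Agent.Helper9.MABd
import Pool.Agent.Helper67.MAHodo

set_option autoImplicit false

namespace Pool.Agent.Helper9.MA

open Set Real Filter Topology Pool.Agent.Helper47.MA

/-- the cutoff -/
noncomputable def chi (z : ℝ × ℝ) : ℝ := bmp (z.1 / 6) * bmp (z.2 / 2)

lemma one_le_fac (N : ℕ) : (1 : ℝ) ≤ N.factorial := by exact_mod_cast Nat.factorial_pos N

lemma exists_chi (N : ℕ) : ∃ C, 1 ≤ C ∧ Bd N C 1 chi := by
  obtain ⟨C, hC1, hC⟩ := exists_bmp N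
  have hf := one_le_fac N
  have h1 := (hC.scale (by linarith) le_rfl (1 / 6) 0).mono (by positivity) (by positivity) le_rfl
    (by rw [abs_of_pos (by norm_num)]; norm_num : 1 * |(1 / 6 : ℝ)| ≤ 1)
  have h2 := (hC.scale (by linarith) le_rfl (1 / 2) 0).mono (by positivity) (by positivity) le_rfl
    (by rw [abs_of_pos (by norm_num)]; norm_num : 1 * |(1 / 2 : ℝ)| ≤ 1)
  have h3 := (h1.fst (by positivity) le_rfl).mul (h2.snd (by positivity) le_rfl) (by positivity)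
    (by positivity) zero_le_one
  have h2N : (1 : ℝ) ≤ 2 ^ N := one_le_pow₀ (by norm_num)
  have ha : (1 : ℝ) ≤ N.factorial * (N.factorial * C) :=
    one_le_mul_of_one_le_of_one_le hf (one_le_mul_of_one_le_of_one_le hf hC1)
  refine ⟨_, one_le_mul_of_one_le_of_one_le h2N (one_le_mul_of_one_le_of_one_le ha ha),
    h3.congr ?_⟩
  intro z
  unfold chi
  ring_nf

/-- first piece -/
lemma exists_A1 (N : ℕ) : ∃ C, 1 ≤ C ∧ ∀ D : ℕ, 1 ≤ D →
    Bd N (C * D) (C * D) (fun z : ℝ × ℝ => chi z * alp D z.1) := by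
  obtain ⟨C, hC1, hC⟩ := exists_chi N
  obtain ⟨C', hC1', hC'⟩ := exists_wl N
  have hf := one_le_fac N
  set F : ℝ := (N.factorial : ℝ) with hF
  refine ⟨2 ^ N * (C * (F * (1 + F * C'))) + 2, ?_, ?_⟩
  · have : 0 ≤ 2 ^ N * (C * (F * (1 + F * C'))) := by positivity
    linarith
  intro D hD
  have hD1 : (1 : ℝ) ≤ D := by exact_mod_cast hD
  have h1 : ∀ j : Fin D, Bd N (F * C') (2 * D) (fun x : ℝ => wl (2 * D * x - (j : ℕ))) := by
    intro j
    have h := hC'.scale (by linarith) le_rfl (2 * D) (-((j : ℕ) : ℝ))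
    rw [one_mul, abs_of_pos (by linarith)] at h
    exact h.congr fun x => by rw [sub_eq_add_neg]
  have h2 := ((Bd.sum h1 (by linarith)).const_mul (-1)).add
    (Bd.const (E := ℝ) (N := N) 1 (by linarith : (0 : ℝ) ≤ 2 * D))
  have h3 : Bd N ((1 + F * C') * D) (2 * D) (alp D) := by
    refine (h2.mono (by positivity) (by linarith) ?_ le_rfl).congr ?_
    · rw [abs_neg, abs_one, one_mul]
      nlinarith
    · intro x
      unfold alp
      ring
  have h4 := (hC.mono (by linarith) zero_le_one le_rfl (by linarith : (1 : ℝ) ≤ 2 * D)).mul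
    (h3.fst (by positivity) (by linarith)) (by linarith) (by positivity) (by linarith)
  refine h4.mono (by positivity) (by linarith) ?_ ?_
  · have e : 2 ^ N * (C * (F * ((1 + F * C') * D))) = 2 ^ N * (C * (F * (1 + F * C'))) * D := by
      ring
    rw [e]
    nlinarith
  · have : 0 ≤ 2 ^ N * (C * (F * (1 + F * C'))) := by positivity
    nlinarith

/-- second piece -/
lemma exists_A2 (N : ℕ) : ∃ C, 1 ≤ C ∧ ∀ V h : ℝ, 1 ≤ V → 1 ≤ h →
    Bd N C (C * V) (fun z : ℝ × ℝ => chi z * (bmp z.1 * mper (Zf V h z))) := by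
  obtain ⟨C, hC1, hC⟩ := exists_chi N
  obtain ⟨C2, hC12, hC2⟩ := exists_bmp N
  obtain ⟨C3, hC13, hC3⟩ := exists_mper N
  obtain ⟨C4, hC14, hC4⟩ := exists_Zf N
  have hf := one_le_fac N
  set F : ℝ := (N.factorial : ℝ) with hF
  set A : ℝ := 2 ^ N * (C * (2 ^ N * (F * C2 * (F * C3)))) with hA
  have hA0 : 0 ≤ A := by positivity
  refine ⟨A + C3 * C4, by nlinarith [one_le_mul_of_one_le_of_one_le hC13 hC14], ?_⟩
  intro V h hV hh
  have h34 := one_le_mul_of_one_le_of_one_le hC13 hC14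
  have h34V := one_le_mul_of_one_le_of_one_le h34 hV
  have h1 := hC3.comp (hC4 V h hV hh) (by linarith) hC13 (by positivity)
  have e : C3 * (C4 * V) = C3 * C4 * V := by ring
  rw [e] at h1
  have h2 := ((hC2.mono (by linarith) zero_le_one le_rfl h34V).fst (by linarith) h34V).mul h1
    (by positivity) (by positivity) (by positivity)
  have h3 := (hC.mono (by linarith) zero_le_one le_rfl h34V).mul h2 (by linarith) (by positivity)
    (by positivity)
  refine h3.mono (by positivity) (by positivity) (by linarith) ?_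
  nlinarith

/-- third piece -/
lemma exists_A3 (N : ℕ) : ∃ C, 1 ≤ C ∧ ∀ V h r a : ℝ, 1 ≤ V → 1 ≤ h → 0 < r → r ≤ 1 / 2 →
    Bd N (C / r ^ 2) (C * V / r ^ 2)
      (fun z : ℝ × ℝ => chi z * (bmp (2 * (z.1 - a) / r) * (bs' r (Zf V h z) * tau z.1))) := by
  obtain ⟨C, hC1, hC⟩ := exists_chi N
  obtain ⟨C2, hC12, hC2⟩ := exists_bmp N
  obtain ⟨C3, hC13, hC3⟩ := exists_bs' N
  obtain ⟨C4, hC14, hC4⟩ := exists_Zf N
  obtain ⟨C5, hC15, hC5⟩ := exists_tau N
  have hf := one_le_fac N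
  set F : ℝ := (N.factorial : ℝ) with hF
  set A : ℝ := 2 ^ N * (C * (2 ^ N * (F * (F * C2) * (2 ^ N * (F * C3 * (F * C5)))))) with hA
  have hA0 : 0 ≤ A := by positivity
  have h34 := one_le_mul_of_one_le_of_one_le hC13 hC14
  refine ⟨A + 2 * (C3 * C4), by linarith, ?_⟩
  intro V h r a hV hh hr hr1
  have hr2 : 0 < r ^ 2 := by positivity
  have hr3 : r ^ 2 ≤ 1 := by nlinarith
  have h34V := one_le_mul_of_one_le_of_one_le h34 hV
  set R : ℝ := 2 * (C3 * C4) * V / r ^ 2 with hR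
  have hR2 : 2 / r ≤ R := by
    rw [hR, div_le_div_iff₀ hr hr2]
    have h5 : r ^ 2 ≤ r := by nlinarith
    nlinarith
  have hR1 : 1 ≤ R := by
    refine le_trans ?_ hR2
    rw [le_div_iff₀ hr]
    linarith
  have hR0 : 0 ≤ R := by linarith
  have h1 : Bd N (F * (C3 / r ^ 2)) R (fun z => bs' r (Zf V h z)) := by
    have h := (hC3 r hr hr1).comp (hC4 V h hV hh) (by positivity)
      (by rw [le_div_iff₀ hr2]; linarith) (by positivity)
    refine h.mono (by positivity) (by positivity) le_rfl ?_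
    rw [hR]
    have e : C3 / r ^ 2 * (C4 * V) = (C3 * C4 * V) / r ^ 2 := by ring
    rw [e]
    apply div_le_div_of_nonneg_right _ hr2.le
    nlinarith
  have h2 := h1.mul ((hC5.mono (by linarith) zero_le_one le_rfl hR1).fst (by linarith) hR1)
    (by positivity) (by positivity) hR0
  have h3 : Bd N (F * (F * C2)) R (fun z : ℝ × ℝ => bmp (2 * (z.1 - a) / r)) := by
    have h := hC2.scale (by linarith) le_rfl (2 / r) (-(2 * a / r))
    have h' := (h.mono (by positivity) (by positivity) le_rfl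
      (by rw [one_mul, abs_of_pos (by positivity)]; exact hR2 : 1 * |2 / r| ≤ R)).fst
      (by positivity) hR1
    refine h'.congr ?_
    intro z
    congr 1
    ring
  have h4 := h3.mul h2 (by positivity) (by positivity) hR0
  have h5 := (hC.mono (by linarith) zero_le_one le_rfl hR1).mul h4 (by linarith) (by positivity)
    hR0
  refine h5.mono (by positivity) hR0 ?_ ?_
  · have e : 2 ^ N * (C * (2 ^ N * (F * (F * C2) * (2 ^ N * (F * (C3 / r ^ 2) * (F * C5)))))) =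
        A / r ^ 2 := by rw [hA]; ring
    rw [e]
    apply div_le_div_of_nonneg_right _ hr2.le
    nlinarith
  · rw [hR]
    apply div_le_div_of_nonneg_right _ hr2.le
    nlinarith

/-- the right-hand side -/
noncomputable def KL (V : ℝ) (D : ℕ) (h μ r ρ : ℝ) (θ : Fin D → Bool) (z : ℝ × ℝ) : ℝ :=
  (V ^ 2)⁻¹ * (chi z * kk D h μ r ρ θ z.1 (V * z.2))

lemma KL_eq (V : ℝ) (D : ℕ) (h μ r ρ : ℝ) (θ : Fin D → Bool) (z : ℝ × ℝ) :
    KL V D h μ r ρ θ z = (V ^ 2)⁻¹ * (chi z * alp D z.1) +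
      (-((V ^ 2)⁻¹ * μ)) * (chi z * (bmp z.1 * mper (Zf V h z))) +
      ∑ j : Fin D, ((V ^ 2)⁻¹ * (if θ j then 1 else 0) * ρ / h) *
        (chi z * (bmp (2 * (z.1 - (j : ℕ) / (2 * D)) / r) * (bs' r (Zf V h z) * tau z.1))) := by
  rcases le_total 2 |z.2| with hz | hz
  · have h0 : chi z = 0 := by
      unfold chi
      rw [bmp_zero (t := z.2 / 2), mul_zero]
      rw [abs_div]
      norm_num
      linarith
    unfold KL
    rw [h0]
    simp
  · have hb : bmp (z.2 / 4) = 1 := by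
      apply bmp_one
      rw [abs_div]
      norm_num
      linarith
    have hZ : Zf V h z = tau z.1 * (V * z.2) / h := by
      unfold Zf
      rw [hb]
      ring
    unfold KL kk k0 fb
    rw [hZ]
    have e : ∑ j : Fin D, ((V ^ 2)⁻¹ * (if θ j then 1 else 0) * ρ / h) *
        (chi z * (bmp (2 * (z.1 - (j : ℕ) / (2 * D)) / r) *
          (bs' r (tau z.1 * (V * z.2) / h) * tau z.1))) =
        (V ^ 2)⁻¹ * (chi z * ∑ j : Fin D, (if θ j then (1 : ℝ) else 0) *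
          (ρ * bmp (2 * (z.1 - (j : ℕ) / (2 * D)) / r) *
            (bs' r (tau z.1 * (V * z.2) / h) * (tau z.1 / h)))) := by
      rw [Finset.mul_sum, Finset.mul_sum]
      apply Finset.sum_congr rfl
      intro j _
      ring
    rw [e]
    ring

lemma exists_total (N : ℕ) : ∃ C, 1 ≤ C ∧ ∀ (V h r μ ρ : ℝ) (D : ℕ) (θ : Fin D → Bool),
    1 ≤ V → 1 ≤ h → 0 < r → r ≤ 1 / 2 → 0 ≤ μ → 0 ≤ ρ → 1 ≤ D →
    Bd N ((V ^ 2)⁻¹ * (C * D * (C * D) ^ N) + (V ^ 2)⁻¹ * μ * (C * (C * V) ^ N) +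
      D * ((V ^ 2)⁻¹ * ρ * (C / r ^ 2 * (C * V / r ^ 2) ^ N))) 1 (KL V D h μ r ρ θ) := by
  obtain ⟨C1, hC11, hC1⟩ := exists_A1 N
  obtain ⟨C2, hC21, hC2⟩ := exists_A2 N
  obtain ⟨C3, hC31, hC3⟩ := exists_A3 N
  refine ⟨C1 + C2 + C3, by linarith, ?_⟩
  set C := C1 + C2 + C3 with hC
  intro V h r μ ρ D θ hV hh hr hr1 hμ hρ hD
  have hD1 : (1 : ℝ) ≤ D := by exact_mod_cast hD
  have hr2 : 0 < r ^ 2 := by positivity
  have hr3 : r ^ 2 ≤ 1 := by nlinarith
  have hV2 : 0 ≤ (V ^ 2)⁻¹ := by positivity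
  have a1 := ((hC1 D hD).mono (C' := C * D) (R' := C * D) (by positivity) (by positivity)
    (mul_le_mul_of_nonneg_right (by linarith) (by linarith))
    (mul_le_mul_of_nonneg_right (by linarith) (by linarith))).flat (by positivity)
    (one_le_mul_of_one_le_of_one_le (by linarith) hD1)
  have a2 := ((hC2 V h hV hh).mono (C' := C) (R' := C * V) (by positivity) (by positivity)
    (by linarith)
    (mul_le_mul_of_nonneg_right (by linarith) (by linarith))).flat (by positivity)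
    (one_le_mul_of_one_le_of_one_le (by linarith) hV)
  have hCV : 1 ≤ C * V / r ^ 2 := by
    rw [le_div_iff₀ hr2]
    nlinarith [one_le_mul_of_one_le_of_one_le (by linarith : (1 : ℝ) ≤ C) hV]
  have a3 : ∀ j : Fin D, Bd N ((V ^ 2)⁻¹ * ρ * (C / r ^ 2 * (C * V / r ^ 2) ^ N)) 1
      (fun z : ℝ × ℝ => ((V ^ 2)⁻¹ * (if θ j then 1 else 0) * ρ / h) *
        (chi z * (bmp (2 * (z.1 - (j : ℕ) / (2 * D)) / r) * (bs' r (Zf V h z) * tau z.1)))) := by
    intro j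
    have b1 := ((hC3 V h r ((j : ℕ) / (2 * D)) hV hh hr hr1).mono (C' := C / r ^ 2)
      (R' := C * V / r ^ 2) (by positivity) (by positivity)
      (div_le_div_of_nonneg_right (by linarith) hr2.le)
      (div_le_div_of_nonneg_right (mul_le_mul_of_nonneg_right (by linarith) (by linarith))
        hr2.le)).flat (by positivity) hCV
    refine (b1.const_mul ((V ^ 2)⁻¹ * (if θ j then 1 else 0) * ρ / h)).mono (by positivity)
      zero_le_one ?_ le_rfl
    apply mul_le_mul_of_nonneg_right _ (by positivity)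
    have hi : (0 : ℝ) ≤ (if θ j then 1 else 0) := by split_ifs <;> norm_num
    have hi1 : (if θ j then (1 : ℝ) else 0) ≤ 1 := by split_ifs <;> norm_num
    rw [abs_of_nonneg (by positivity)]
    refine (div_le_self (by positivity) hh).trans ?_
    apply mul_le_mul_of_nonneg_right _ hρ
    exact mul_le_of_le_one_right hV2 hi1
  have t := ((a1.const_mul ((V ^ 2)⁻¹)).add (a2.const_mul (-((V ^ 2)⁻¹ * μ)))).add
    (Bd.sum a3 zero_le_one)
  refine (t.mono (by positivity) zero_le_one ?_ le_rfl).congr (KL_eq V D h μ r ρ θ)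
  rw [abs_of_nonneg hV2, abs_neg, abs_of_nonneg (mul_nonneg hV2 hμ)]

lemma mper_per (s : ℝ) (i : ℤ) : mper (s + 2 * i) = mper s := by
  unfold mper
  have : π * (s + 2 * i) = π * s + i * (2 * π) := by ring
  rw [this, Real.cos_add_int_mul_two_pi]

lemma bs'_per (r s : ℝ) (i : ℤ) : bs' r (s + 2 * i) = bs' r s := by
  unfold bs'
  have : π * (s + 2 * i) = π * s + i * (2 * π) := by ring
  rw [this, Real.cos_add_int_mul_two_pi, Real.sin_add_int_mul_two_pi]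

lemma kk_per {D : ℕ} {h μ r ρ : ℝ} (hh : 0 < h) (θ : Fin D → Bool) {x : ℝ} (hx : |x| ≤ 6)
    (t : ℝ) (i : ℤ) : kk D h μ r ρ θ x (t + 2 * h * i * (1 + x / 200)) = kk D h μ r ρ θ x t := by
  have hd : (1 + x / 200) ≠ 0 := by
    have := (abs_le.1 hx).1
    linarith
  have e : tau x * (t + 2 * h * i * (1 + x / 200)) / h = tau x * t / h + 2 * i := by
    have hd2 : 200 + x ≠ 0 := by
      have := (abs_le.1 hx).1
      linarith
    rw [tau_eq hx]
    field_simp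
  unfold kk k0 fb
  rw [e, mper_per, bs'_per]

lemma tau_le_two (x : ℝ) : tau x ≤ 2 := by
  have := tau_den_pos x
  unfold tau
  rw [inv_le_comm₀ (by linarith) (by norm_num)]
  linarith

lemma exists_kk_le : ∃ C, 1 ≤ C ∧ ∀ (h r μ ρ : ℝ) (D : ℕ) (θ : Fin D → Bool),
    1 ≤ h → 0 < r → r ≤ 1 / 2 → 0 ≤ μ → μ ≤ 1 → 0 ≤ ρ → D * ρ * (C / r ^ 2) ≤ 1 →
    ∀ x t, |kk D h μ r ρ θ x t| ≤ 2 := by
  obtain ⟨C, hC1, hC⟩ := exists_bs' 0
  refine ⟨2 * C, by linarith, ?_⟩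
  intro h r μ ρ D θ hh hr hr1 hμ hμ1 hρ hb x t
  have h1 : ∀ s, |bs' r s| ≤ C / r ^ 2 := by
    intro s
    have := (hC r hr hr1).2 0 le_rfl s
    simpa using this
  have h2 : |∑ j : Fin D, (if θ j then (1 : ℝ) else 0) * fb D h r ρ j x t| ≤ 1 := by
    refine (Finset.abs_sum_le_sum_abs _ _).trans ?_
    have h3 : ∀ j ∈ (Finset.univ : Finset (Fin D)),
        |(if θ j then (1 : ℝ) else 0) * fb D h r ρ j x t| ≤ ρ * (2 * C / r ^ 2) := by
      intro j _
      unfold fb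
      have hi : |(if θ j then (1 : ℝ) else 0)| ≤ 1 := by split_ifs <;> norm_num
      have hb1 : |bmp (2 * (x - (j : ℕ) / (2 * D)) / r)| ≤ 1 := by
        rw [abs_of_nonneg (bmp_nonneg _)]
        exact bmp_le_one _
      have ht : |tau x / h| ≤ 2 := by
        rw [abs_of_nonneg (div_nonneg (tau_pos x).le (by linarith))]
        exact (div_le_self (tau_pos x).le hh).trans (tau_le_two x)
      rw [abs_mul, abs_mul, abs_mul, abs_mul, abs_of_nonneg hρ]
      have h4 : |bs' r (tau x * t / h)| * |tau x / h| ≤ C / r ^ 2 * 2 :=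
        mul_le_mul (h1 _) ht (abs_nonneg _) (by positivity)
      have h5 : ρ * |bmp (2 * (x - (j : ℕ) / (2 * D)) / r)| ≤ ρ * 1 :=
        mul_le_mul_of_nonneg_left hb1 hρ
      calc _ ≤ 1 * ((ρ * 1) * (C / r ^ 2 * 2)) :=
            mul_le_mul hi (mul_le_mul h5 h4 (by positivity) (by positivity)) (by positivity)
              (by norm_num)
        _ = _ := by ring
    refine (Finset.sum_le_sum h3).trans ?_
    rw [Finset.sum_const, Finset.card_univ, Fintype.card_fin, nsmul_eq_mul, ← mul_assoc]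
    exact hb
  unfold kk
  have h6 := k0_abs_le (D := D) (h := h) hμ hμ1 x t
  refine (abs_add_le _ _).trans ?_
  linarith

/-- the scaling map -/
noncomputable def SS (V : ℝ) : ℝ × ℝ →L[ℝ] ℝ × ℝ :=
  (ContinuousLinearMap.fst ℝ ℝ ℝ).prod (V⁻¹ • ContinuousLinearMap.snd ℝ ℝ ℝ)

lemma SS_apply (V : ℝ) (z : ℝ × ℝ) : SS V z = (z.1, V⁻¹ * z.2) := rfl

/-- the open boxes -/
def box (V : ℝ) : Set (ℝ × ℝ) := Ioo (-3) 3 ×ˢ Ioo (-V) V

lemma box_open (V : ℝ) : IsOpen (box V) := isOpen_Ioo.prod isOpen_Ioo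

lemma SS_mem {V : ℝ} (hV : 0 < V) {z : ℝ × ℝ} (hz : z ∈ box V) : SS V z ∈ box 1 := by
  rw [SS_apply]
  obtain ⟨h1, h2⟩ := hz
  refine ⟨h1, ?_, ?_⟩
  · have := h2.1
    rw [← sub_pos]
    have e : V⁻¹ * z.2 - -1 = V⁻¹ * (z.2 + V) := by field_simp; ring
    simp only
    rw [e]
    apply mul_pos (by positivity)
    linarith
  · have := h2.2
    rw [← sub_pos]
    have e : 1 - V⁻¹ * z.2 = V⁻¹ * (V - z.2) := by field_simp
    simp only
    rw [e]
    apply mul_pos (by positivity)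
    linarith

lemma D2_scale {V : ℝ} (hV : 0 < V) {u : ℝ × ℝ → ℝ} (hu : ContDiffOn ℝ 2 u (box 1))
    {z : ℝ × ℝ} (hz : z ∈ box V) (a b : ℝ × ℝ) :
    D2 (fun w => V ^ 2 * u (SS V w)) z a b = V ^ 2 * D2 u (SS V z) (SS V a) (SS V b) := by
  have hd : ∀ w ∈ box V, DifferentiableAt ℝ u (SS V w) := fun w hw =>
    (hu.differentiableOn (by norm_num) _ (SS_mem hV hw)).differentiableAt
      ((box_open 1).mem_nhds (SS_mem hV hw))
  have h1 : ∀ w ∈ box V, fderiv ℝ (fun w => V ^ 2 * u (SS V w)) w a =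
      V ^ 2 * fderiv ℝ u (SS V w) (SS V a) := by
    intro w hw
    have h2 : HasFDerivAt (fun w => u (SS V w)) ((fderiv ℝ u (SS V w)).comp (SS V)) w :=
      (hd w hw).hasFDerivAt.comp w (SS V).hasFDerivAt
    have h3 := h2.const_mul (V ^ 2)
    rw [h3.fderiv]
    simp
  have hfd : ContDiffOn ℝ 1 (fderiv ℝ u) (box 1) :=
    hu.fderiv_of_isOpen (box_open 1) (by norm_num)
  have hd2 : DifferentiableAt ℝ (fun w => fderiv ℝ u w (SS V a)) (SS V z) := by
    have h4 : ContDiffOn ℝ 1 (fun w => fderiv ℝ u w (SS V a)) (box 1) :=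
      hfd.clm_apply contDiffOn_const
    exact (h4.differentiableOn (by norm_num) _ (SS_mem hV hz)).differentiableAt
      ((box_open 1).mem_nhds (SS_mem hV hz))
  unfold D2
  have h5 : (fun w => fderiv ℝ (fun w => V ^ 2 * u (SS V w)) w a) =ᶠ[𝓝 z]
      fun w => V ^ 2 * fderiv ℝ u (SS V w) (SS V a) := by
    filter_upwards [(box_open V).mem_nhds hz] with w hw using h1 w hw
  rw [h5.fderiv_eq]
  have h6 : HasFDerivAt (fun w => fderiv ℝ u (SS V w) (SS V a))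
      ((fderiv ℝ (fun w => fderiv ℝ u w (SS V a)) (SS V z)).comp (SS V)) z :=
    hd2.hasFDerivAt.comp z (SS V).hasFDerivAt
  rw [(h6.const_mul (V ^ 2)).fderiv]
  simp

lemma D2_smul_left {u : ℝ × ℝ → ℝ} (hu : ContDiffOn ℝ 2 u (box 1)) {z : ℝ × ℝ}
    (hz : z ∈ box 1) (c : ℝ) (a b : ℝ × ℝ) : D2 u z (c • a) b = c * D2 u z a b := by
  have hfd : ContDiffOn ℝ 1 (fderiv ℝ u) (box 1) :=
    hu.fderiv_of_isOpen (box_open 1) (by norm_num)
  have hd2 : DifferentiableAt ℝ (fun w => fderiv ℝ u w a) z := by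
    have h4 : ContDiffOn ℝ 1 (fun w => fderiv ℝ u w a) (box 1) :=
      hfd.clm_apply contDiffOn_const
    exact (h4.differentiableOn (by norm_num) _ hz).differentiableAt ((box_open 1).mem_nhds hz)
  unfold D2
  have e : (fun w => fderiv ℝ u w (c • a)) = fun w => c * fderiv ℝ u w a := by
    ext w
    rw [map_smul, smul_eq_mul]
  rw [e, (hd2.hasFDerivAt.const_mul c).fderiv]
  simp

lemma D2_smul_right (u : ℝ × ℝ → ℝ) (z : ℝ × ℝ) (c : ℝ) (a b : ℝ × ℝ) :
    D2 u z a (c • b) = c * D2 u z a b := by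
  unfold D2
  rw [map_smul, smul_eq_mul]

lemma SS_e1 (V : ℝ) : SS V e1 = e1 := by
  rw [SS_apply]
  simp [e1]

lemma SS_e2 (V : ℝ) : SS V e2 = V⁻¹ • e2 := by
  rw [SS_apply]
  simp [e2]

/-- the contradiction for one scale -/
lemma no_u {V h μ r ρ : ℝ} {D : ℕ} {θ : Fin D → Bool} (hh : 1000 ≤ h) (hV : 100 * h ≤ V)
    (hb : ∀ x t, |kk D h μ r ρ θ x t| ≤ 2)
    (hno : ¬ ∃ Y p ψ Yx Yq : ℝ × ℝ → ℝ, Sol (kk D h μ r ρ θ) V h Y p ψ Yx Yq) :
    ¬ ∃ u : ℝ × ℝ → ℝ, ContDiffOn ℝ 2 u (Ioo (-3) 3 ×ˢ Ioo (-1) 1) ∧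
      ∀ z ∈ Ioo (-3 : ℝ) 3 ×ˢ Ioo (-1 : ℝ) 1, |D2 u z e2 e2 - 1| ≤ 1 / 1000 ∧
        |D2 u z e1 e2| ≤ 1 / 1000 ∧ MAop u z = KL V D h μ r ρ θ z := by
  rintro ⟨u, hu, hP⟩
  apply hno
  have hV0 : 0 < V := by linarith
  have hu' : ContDiffOn ℝ 2 u (box 1) := hu
  have h22 : ∀ z ∈ box V, D2 (fun w => V ^ 2 * u (SS V w)) z e2 e2 = D2 u (SS V z) e2 e2 := by
    intro z hz
    rw [D2_scale hV0 hu' hz, SS_e2, D2_smul_left hu' (SS_mem hV0 hz), D2_smul_right]
    field_simp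
  have h12 : ∀ z ∈ box V, D2 (fun w => V ^ 2 * u (SS V w)) z e1 e2 =
      V * D2 u (SS V z) e1 e2 := by
    intro z hz
    rw [D2_scale hV0 hu' hz, SS_e2, SS_e1, D2_smul_right]
    field_simp
  have h11 : ∀ z ∈ box V, D2 (fun w => V ^ 2 * u (SS V w)) z e1 e1 =
      V ^ 2 * D2 u (SS V z) e1 e1 := by
    intro z hz
    rw [D2_scale hV0 hu' hz, SS_e1]
  apply Pool.Agent.Helper67.MA.hodograph V h hh hV (kk D h μ r ρ θ) (fun x _ t => hb x t) ?_
    (fun w => V ^ 2 * u (SS V w)) ?_ ?_ ?_ ?_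
  · intro x hx t i
    apply kk_per (by linarith)
    rw [abs_le]
    constructor <;> linarith [hx.1, hx.2]
  · apply contDiffOn_const.mul
    apply hu'.comp (SS V).contDiff.contDiffOn
    intro w hw
    exact SS_mem hV0 hw
  · intro z hz
    rw [h22 z hz]
    exact (hP _ (SS_mem hV0 hz)).1
  · intro z hz
    rw [h12 z hz, abs_mul, abs_of_pos hV0]
    have := (hP _ (SS_mem hV0 hz)).2.1
    rw [div_eq_mul_one_div]
    exact mul_le_mul_of_nonneg_left this hV0.le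
  · intro z hz
    have h3 := (hP _ (SS_mem hV0 hz)).2.2
    have h4 : MAop (fun w => V ^ 2 * u (SS V w)) z = V ^ 2 * MAop u (SS V z) := by
      unfold MAop
      rw [h22 z hz, h12 z hz, h11 z hz]
      ring
    rw [h4, h3]
    have hm := SS_mem hV0 hz
    have hc : chi (SS V z) = 1 := by
      unfold chi
      rw [bmp_one, bmp_one, one_mul]
      · have := hm.2
        rw [abs_div, abs_of_pos (by norm_num : (0 : ℝ) < 2), div_le_iff₀ (by norm_num), abs_le]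
        constructor <;> linarith [this.1, this.2]
      · have := hm.1
        rw [abs_div, abs_of_pos (by norm_num : (0 : ℝ) < 6), div_le_iff₀ (by norm_num), abs_le]
        constructor <;> linarith [this.1, this.2]
    unfold KL
    rw [hc, SS_apply]
    simp only
    have e : V * (V⁻¹ * z.2) = z.2 := by field_simp
    rw [e]
    field_simp

lemma KL_support {V : ℝ} {D : ℕ} {h μ r ρ : ℝ} {θ : Fin D → Bool} {z : ℝ × ℝ}
    (hz : 10 ≤ ‖z‖) : KL V D h μ r ρ θ z = 0 := by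
  have h0 : chi z = 0 := by
    unfold chi
    rw [Prod.norm_def] at hz
    rcases le_max_iff.1 hz with h | h
    · rw [Real.norm_eq_abs] at h
      rw [bmp_zero (t := z.1 / 6), zero_mul]
      rw [abs_div, abs_of_pos (by norm_num : (0 : ℝ) < 6), le_div_iff₀ (by norm_num)]
      linarith
    · rw [Real.norm_eq_abs] at h
      rw [bmp_zero (t := z.2 / 2), mul_zero]
      rw [abs_div, abs_of_pos (by norm_num : (0 : ℝ) < 2), le_div_iff₀ (by norm_num)]
      linarith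
  unfold KL
  rw [h0, zero_mul, mul_zero]

lemma KL_neg {V : ℝ} {D : ℕ} {h μ r ρ : ℝ} {θ : Fin D → Bool} (hV : 0 < V) (hh : 0 < h)
    (hhV : h ≤ V) (hμ : 0 < μ) (hr : 0 < r) (hr1 : r ≤ 1 / 4) (hD : 1 ≤ D) :
    KL V D h μ r ρ θ (0, h / (4 * V)) < 0 := by
  have ht : tau 0 = 1 := by
    rw [tau_eq (by norm_num)]
    norm_num
  have e : tau 0 * (V * (h / (4 * V))) / h = 1 / 4 := by
    rw [ht]
    field_simp
  have hc : chi (0, h / (4 * V)) = 1 := by
    unfold chi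
    rw [bmp_one, bmp_one, one_mul]
    · simp only
      rw [abs_of_nonneg (by positivity), div_le_iff₀ (by norm_num), div_le_iff₀ (by positivity)]
      linarith
    · norm_num
  have hk : kk D h μ r ρ θ 0 (V * (h / (4 * V))) = -μ := by
    rw [kk_eq_k0 hr (by linarith)]
    · unfold k0
      rw [e, mper_one (by rw [abs_of_pos] <;> norm_num)]
      have h1 := alp_guide (D := D) ⟨0, by omega⟩ (x := 0) (by norm_num)
      rw [h1, bmp_one (by norm_num)]
      norm_num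
    · rw [e, abs_of_pos (by norm_num)]
      exact hr1
    · rw [e, abs_of_pos (by norm_num)]
      norm_num
  unfold KL
  simp only
  rw [hc, hk]
  have : 0 < (V ^ 2)⁻¹ := by positivity
  nlinarith

lemma bound_total {C D x : ℝ} {κ N b : ℕ} (hC : 1 ≤ C) (hD : 1 ≤ D) (hx : 1 ≤ x)
    (hκ : κ = N + 3) (hb : b = (N + 3) * (4 * κ + 2)) :
    (x ^ 2)⁻¹ * (C * D * (C * D) ^ N) + (x ^ 2)⁻¹ * (x ^ κ)⁻¹ * (C * (C * x) ^ N) +
      D * ((x ^ 2)⁻¹ * (x ^ b)⁻¹ * (C / ((x ^ (2 * κ))⁻¹) ^ 2 *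
        (C * x / ((x ^ (2 * κ))⁻¹) ^ 2) ^ N)) ≤ 3 * (C * D) ^ (N + 1) * x⁻¹ := by
  have hx0 : 0 < x := by linarith
  have hCD : 1 ≤ C * D := one_le_mul_of_one_le_of_one_le hC hD
  have hle : ∀ m n : ℕ, m + 1 ≤ n → x ^ m * (x ^ n)⁻¹ ≤ x⁻¹ := by
    intro m n hmn
    rw [← one_div, ← one_div, mul_one_div, div_le_div_iff₀ (by positivity) hx0, one_mul, ← pow_succ]
    exact pow_le_pow_right₀ hx hmn
  have h1 : (x ^ 2)⁻¹ * (C * D * (C * D) ^ N) ≤ (C * D) ^ (N + 1) * x⁻¹ := by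
    have := hle 0 2 (by norm_num)
    rw [pow_zero, one_mul] at this
    calc (x ^ 2)⁻¹ * (C * D * (C * D) ^ N) = (C * D) ^ (N + 1) * (x ^ 2)⁻¹ := by ring
      _ ≤ _ := mul_le_mul_of_nonneg_left this (by positivity)
  have hCN : C ^ (N + 1) ≤ (C * D) ^ (N + 1) :=
    pow_le_pow_left₀ (by linarith) (le_mul_of_one_le_right (by linarith) hD) _
  have h2 : (x ^ 2)⁻¹ * (x ^ κ)⁻¹ * (C * (C * x) ^ N) ≤ (C * D) ^ (N + 1) * x⁻¹ := by
    have h3 := hle N (2 + κ) (by omega)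
    calc (x ^ 2)⁻¹ * (x ^ κ)⁻¹ * (C * (C * x) ^ N) = C ^ (N + 1) * (x ^ N * (x ^ (2 + κ))⁻¹) := by
          rw [pow_add x 2 κ, mul_inv, mul_pow]
          ring
      _ ≤ (C * D) ^ (N + 1) * x⁻¹ := mul_le_mul hCN h3 (by positivity) (by positivity)
  have h3 : D * ((x ^ 2)⁻¹ * (x ^ b)⁻¹ * (C / ((x ^ (2 * κ))⁻¹) ^ 2 *
        (C * x / ((x ^ (2 * κ))⁻¹) ^ 2) ^ N)) ≤ (C * D) ^ (N + 1) * x⁻¹ := by
    have h4 := hle (4 * κ + (1 + 4 * κ) * N) (2 + b) (by
      subst hκ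
      rw [hb]
      ring_nf
      nlinarith)
    have e : ((x ^ (2 * κ))⁻¹) ^ 2 = (x ^ (4 * κ))⁻¹ := by
      rw [inv_pow, ← pow_mul]
      congr 2
      ring
    have hDN : D * C ^ (N + 1) ≤ (C * D) ^ (N + 1) := by
      rw [mul_pow, mul_comm]
      apply mul_le_mul_of_nonneg_left _ (by positivity)
      exact le_self_pow₀ hD (by omega)
    calc D * ((x ^ 2)⁻¹ * (x ^ b)⁻¹ * (C / ((x ^ (2 * κ))⁻¹) ^ 2 *
          (C * x / ((x ^ (2 * κ))⁻¹) ^ 2) ^ N))
        = D * C ^ (N + 1) * (x ^ (4 * κ + (1 + 4 * κ) * N) * (x ^ (2 + b))⁻¹) := by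
          rw [e, div_inv_eq_mul, div_inv_eq_mul, pow_add x 2 b, mul_inv, pow_add, pow_mul, pow_add,
            pow_one, mul_pow, mul_pow]
          ring
      _ ≤ (C * D) ^ (N + 1) * x⁻¹ := mul_le_mul hDN h4 (by positivity) (by positivity)
  linarith

theorem nl_of_theta (hT : ThetaStatement) : NLStatement := by
  intro N δ hδ
  obtain ⟨C, hC1, hC⟩ := exists_total N
  obtain ⟨C', hC1', hC'⟩ := exists_kk_le
  set κ := N + 3 with hκ
  set b := (N + 3) * (4 * κ + 2) with hb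
  obtain ⟨H, D0, L, hH, hD0, hθ⟩ := hT κ b (by omega) (by rw [hb]; nlinarith)
  have hHr : (1 : ℝ) ≤ H := by exact_mod_cast hH
  have hDr : (1 : ℝ) ≤ D0 := by exact_mod_cast hD0
  -- the eventual conditions
  have hlim : ∀ (c : ℝ) (k : ℕ) (ε : ℝ), 0 < ε →
      ∀ᶠ ℓ : ℕ in atTop, c * ((ℓ : ℝ) ^ k * (1 / 2) ^ ℓ) ≤ ε := by
    intro c k ε hε
    have h1 := (tendsto_pow_const_mul_const_pow_of_abs_lt_one k
      (by rw [abs_of_pos] <;> norm_num : |(1 / 2 : ℝ)| < 1)).const_mul c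
    rw [mul_zero] at h1
    filter_upwards [h1.eventually (gt_mem_nhds hε)] with ℓ hℓ using hℓ.le
  obtain ⟨ℓ, hℓL, hℓ1000, hc1, hc2, hc3⟩ := ((eventually_ge_atTop L).and
    ((eventually_ge_atTop 1000).and ((hlim (100 * H) 1 1 one_pos).and
      ((hlim (D0 * C') 3 1 one_pos).and
        (hlim (3 * (C * D0) ^ (N + 1)) (3 * (N + 1)) δ hδ))))).exists
  have hℓr : (1000 : ℝ) ≤ ℓ := by exact_mod_cast hℓ1000
  obtain ⟨θ, hno⟩ := hθ ℓ hℓL
  set x : ℝ := 2 ^ ℓ with hx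
  have hx1 : 1 ≤ x := one_le_pow₀ (by norm_num)
  have hx0 : 0 < x := by linarith
  have hxh : (1 / 2 : ℝ) ^ ℓ = x⁻¹ := by rw [hx, one_div, inv_pow]
  have hpw : ∀ m : ℕ, (1 / 2 : ℝ) ^ (m * ℓ) = (x ^ m)⁻¹ := by
    intro m
    rw [mul_comm, pow_mul, hxh, inv_pow]
  rw [hpw, hpw, hpw] at hno
  set h : ℝ := (H : ℝ) * ℓ with hh
  have hh1 : 1000 ≤ h := by nlinarith
  have hhV : 100 * h ≤ x := by
    rw [hxh, pow_one] at hc1
    have := mul_le_mul_of_nonneg_right hc1 hx0.le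
    have e : 100 * (H : ℝ) * (ℓ * x⁻¹) * x = 100 * h := by
      rw [hh]; field_simp
    rw [e, one_mul] at this
    exact this
  have hx2 : 100000 ≤ x := by linarith
  have hr0 : 0 < (x ^ (2 * κ))⁻¹ := by positivity
  have hxk : 4 ≤ x ^ (2 * κ) := by
    have : x ^ 1 ≤ x ^ (2 * κ) := pow_le_pow_right₀ hx1 (by omega)
    linarith
  have hr1 : (x ^ (2 * κ))⁻¹ ≤ 1 / 4 := by
    rw [inv_le_comm₀ (by positivity) (by norm_num)]
    linarith
  have hμ1 : (x ^ κ)⁻¹ ≤ 1 := inv_le_one_of_one_le₀ (one_le_pow₀ hx1)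
  have hDn : 1 ≤ D0 * ℓ ^ 3 := Nat.one_le_iff_ne_zero.2 (by positivity)
  have hDc : ((D0 * ℓ ^ 3 : ℕ) : ℝ) = D0 * (ℓ : ℝ) ^ 3 := by push_cast; ring
  have hDr1 : (1 : ℝ) ≤ D0 * (ℓ : ℝ) ^ 3 := by
    rw [← hDc]; exact_mod_cast hDn
  have hkk := hC' h ((x ^ (2 * κ))⁻¹) ((x ^ κ)⁻¹) ((x ^ b)⁻¹) (D0 * ℓ ^ 3) θ (by linarith) hr0
    (by linarith) (by positivity) hμ1 (by positivity) (by
      rw [hDc]
      have e : ((x ^ (2 * κ))⁻¹) ^ 2 = (x ^ (4 * κ))⁻¹ := by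
        rw [inv_pow, ← pow_mul]
        congr 2
        ring
      rw [e, div_inv_eq_mul]
      have h5 : x ^ (4 * κ) * (x ^ b)⁻¹ ≤ x⁻¹ := by
        rw [← one_div, ← one_div, mul_one_div, div_le_div_iff₀ (by positivity) hx0, one_mul,
          ← pow_succ]
        apply pow_le_pow_right₀ hx1
        rw [hb]
        nlinarith
      calc (D0 : ℝ) * (ℓ : ℝ) ^ 3 * (x ^ b)⁻¹ * (C' * x ^ (4 * κ))
          = D0 * C' * (ℓ : ℝ) ^ 3 * (x ^ (4 * κ) * (x ^ b)⁻¹) := by ring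
        _ ≤ D0 * C' * (ℓ : ℝ) ^ 3 * x⁻¹ := mul_le_mul_of_nonneg_left h5 (by positivity)
        _ = D0 * C' * ((ℓ : ℝ) ^ 3 * x⁻¹) := by ring
        _ ≤ 1 := by rw [← hxh]; exact hc2)
  have hbd := hC x h ((x ^ (2 * κ))⁻¹) ((x ^ κ)⁻¹) ((x ^ b)⁻¹) (D0 * ℓ ^ 3) θ hx1 (by linarith) hr0
    (by linarith) (by positivity) (by positivity) hDn
  refine ⟨KL x (D0 * ℓ ^ 3) h ((x ^ κ)⁻¹) ((x ^ (2 * κ))⁻¹) ((x ^ b)⁻¹) θ, hbd.1,
    fun z hz => KL_support hz, ⟨_, KL_neg hx0 (by linarith) (by linarith) (by positivity) hr0 hr1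
      hDn⟩, ?_, no_u hh1 hhV hkk hno⟩
  intro n hn z
  refine (hbd.2 n hn z).trans ?_
  rw [one_pow, mul_one, hDc]
  refine (bound_total hC1 hDr1 hx1 rfl rfl).trans ?_
  refine le_trans (le_of_eq ?_) hc3
  rw [hxh]
  ring

end Pool.Agent.Helper9.MA
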